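import Pool.Agent.L0h24.PF.Step

set_option autoImplicit false

/-! Almost every diagonal polynomial perturbation has finite multiplicity everywhere. -/

open MeasureTheory Set Topology Asymptotics Filter
open scoped ENNReal NNReal

namespace Pool.Agent.L0h24.PF

open Pool.Agent.H810R3.Tub (Vec)
open MvPolynomial

variable {d : ℕ}

theorem haar_par (d c : ℕ) : (volume : Measure (Par d c)).IsAddHaarMeasure :=
  Measure.pi.isAddHaarMeasure (fun _ : Fin d => (volume : Measure (Fin c → ℝ)))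

theorem stage_null {k : ℕ} {b : Vec d → Vec d} (hb : ContDiff ℝ (k + 1 : ℕ) b) (r : Fin d) :
    volume {p : Par d (d + 2) | ∃ v : Vec d, ∃ t : ℝ,
      Sp k (d + 2) (fun i => FF k b i ((v, t, p) : EE d (d + 2))) r ∧
      ¬ Sp k (d + 2) (fun i => FF k b i ((v, t, p) : EE d (d + 2))) ((r : ℕ) + 1)} = 0 := by
  have hd : 1 ≤ d := Nat.one_le_of_lt r.2
  have := haar_par d (d + 2)
  set Z : Set (EE d (d + 2)) := {e | Sp k (d + 2) (fun i => FF k b i e) r ∧
    ¬ Sp k (d + 2) (fun i => FF k b i e) ((r : ℕ) + 1)} with hZ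
  have hZdim : dimH Z ≤ ((Module.finrank ℝ (EE d (d + 2)) - (d + 2) : ℕ) : ℝ≥0∞) := by
    apply dimH_local
    rintro e ⟨he, _⟩
    obtain ⟨U, hU, heU, hdim⟩ := local_bad hb r e he
    refine ⟨Z ∩ U, inter_mem self_mem_nhdsWithin (nhdsWithin_le_nhds (hU.mem_nhds heU)), ?_⟩
    refine (dimH_mono ?_).trans hdim
    rintro x ⟨⟨_, hx⟩, hxU⟩
    exact ⟨hxU, hx⟩
  have hfin : Module.finrank ℝ (EE d (d + 2)) = d + (1 + d * (d + 2)) := by
    rw [Module.finrank_prod, Module.finrank_prod, Module.finrank_pi_fintype]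
    simp
  have hfinP : Module.finrank ℝ (Par d (d + 2)) = d * (d + 2) := by
    rw [Module.finrank_pi_fintype]
    simp
  have hproj : LipschitzWith 1 (fun e : EE d (d + 2) => e.2.2) :=
    (LipschitzWith.prod_snd.comp LipschitzWith.prod_snd).weaken (by norm_num)
  have himg : {p : Par d (d + 2) | ∃ v : Vec d, ∃ t : ℝ,
      Sp k (d + 2) (fun i => FF k b i ((v, t, p) : EE d (d + 2))) r ∧
      ¬ Sp k (d + 2) (fun i => FF k b i ((v, t, p) : EE d (d + 2))) ((r : ℕ) + 1)} =
      (fun e : EE d (d + 2) => e.2.2) '' Z := by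
    ext p
    constructor
    · rintro ⟨v, t, h⟩
      exact ⟨(v, t, p), h, rfl⟩
    · rintro ⟨⟨v, t, p'⟩, h, rfl⟩
      exact ⟨v, t, h⟩
  rw [himg]
  have h1 : (volume : Measure (Par d (d + 2))) ≪
      Measure.hausdorffMeasure (((Module.finrank ℝ (Par d (d + 2)) : ℝ≥0)) : ℝ) := by
    have := isAddHaarMeasure_hausdorffMeasure (E := Par d (d + 2))
    have h3 : (((Module.finrank ℝ (Par d (d + 2)) : ℝ≥0)) : ℝ) =
        (Module.finrank ℝ (Par d (d + 2)) : ℝ) := by simp
    rw [h3]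
    exact Measure.absolutelyContinuous_isAddHaarMeasure _ _
  refine measure_zero_of_dimH_lt h1 ?_
  refine lt_of_le_of_lt ((hproj.dimH_image_le Z).trans hZdim) ?_
  rw [hfin, hfinP]
  have h2 : d + (1 + d * (d + 2)) - (d + 2) < d * (d + 2) := by
    have : 1 ≤ d * (d + 2) := Nat.one_le_iff_ne_zero.2 (by positivity)
    omega
  exact_mod_cast h2

/-- Almost every diagonal polynomial perturbation has finite multiplicity everywhere. -/
theorem finite_ae {k : ℕ} {b : Vec d → Vec d} (hb : ContDiff ℝ (k + 1 : ℕ) b) :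
    ∀ᵐ p : Par d (d + 2), ∀ (v : Vec d) (t : ℝ),
      Sp k (d + 2) (fun i => FF k b i ((v, t, p) : EE d (d + 2))) d := by
  have h1 : ∀ᵐ p : Par d (d + 2), ∀ r : Fin d, ¬ ∃ v : Vec d, ∃ t : ℝ,
      Sp k (d + 2) (fun i => FF k b i ((v, t, p) : EE d (d + 2))) r ∧
      ¬ Sp k (d + 2) (fun i => FF k b i ((v, t, p) : EE d (d + 2))) ((r : ℕ) + 1) := by
    rw [ae_all_iff]
    intro r
    rw [ae_iff]
    simp only [not_not]
    exact stage_null hb r
  filter_upwards [h1] with p hp v t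
  have key : ∀ r : ℕ, r ≤ d → Sp k (d + 2) (fun i => FF k b i ((v, t, p) : EE d (d + 2))) r := by
    intro r
    induction r with
    | zero => intro _; exact Sp_zero _ _
    | succ r ih =>
      intro hr
      by_contra hcon
      exact hp ⟨r, by omega⟩ ⟨v, t, ih (by omega), hcon⟩
  exact key d le_rfl

end Pool.Agent.L0h24.PF
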