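import Mathlib

set_option autoImplicit false

/-! The algebra of finite multiplicity. -/

open Set Topology Asymptotics Filter
open Polynomial

namespace Pool.Agent.L0h24.PF

section
variable {R : Type} [CommRing R] [Algebra ℝ R]

/-- Lifting generators modulo `τ`. -/
theorem span_lift {B : Ideal R} {τ : R} {k : ℕ} (hτ : τ ^ k ∈ B) {M : Set R}
    (h : ∀ q : R, ∃ s ∈ Submodule.span ℝ M, q - s ∈ B ⊔ Ideal.span {τ}) :
    ∀ q : R, ∃ s ∈ Submodule.span ℝ {y : R | ∃ j < k, ∃ g ∈ M, y = τ ^ j * g}, q - s ∈ B := by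
  set Sp := Submodule.span ℝ {y : R | ∃ j < k, ∃ g ∈ M, y = τ ^ j * g} with hSp
  have key : ∀ m ≤ k, ∀ q : R, ∃ s ∈ Sp, ∃ q', q - s - τ ^ m * q' ∈ B := by
    intro m
    induction m with
    | zero =>
      intro _ q
      exact ⟨0, Sp.zero_mem, q, by simp⟩
    | succ m ih =>
      intro hm q
      obtain ⟨s, hs, q', hq'⟩ := ih (by omega) q
      obtain ⟨s', hs', h'⟩ := h q'
      obtain ⟨b, hb, y, hy, hby⟩ := Submodule.mem_sup.1 h'
      obtain ⟨q'', rfl⟩ := Ideal.mem_span_singleton'.1 hy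
      have h1 : τ ^ m * s' ∈ Sp := by
        have h2 : Submodule.span ℝ M ≤ Sp.comap (LinearMap.mulLeft ℝ (τ ^ m)) := by
          rw [Submodule.span_le]
          intro g hg
          exact Submodule.subset_span ⟨m, by omega, g, hg, rfl⟩
        exact h2 hs'
      refine ⟨s + τ ^ m * s', Sp.add_mem hs h1, q'', ?_⟩
      have e1 : q - (s + τ ^ m * s') - τ ^ (m + 1) * q'' = (q - s - τ ^ m * q') + τ ^ m * b := by
        have : b = q' - s' - q'' * τ := by rw [← hby]; ring
        rw [this]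
        ring
      rw [e1]
      exact B.add_mem hq' (B.mul_mem_left _ hb)
  intro q
  obtain ⟨s, hs, q', hq'⟩ := key k le_rfl q
  refine ⟨s, hs, ?_⟩
  have : q - s = (q - s - τ ^ k * q') + q' * τ ^ k := by ring
  rw [this]
  exact B.add_mem hq' (B.mul_mem_left _ hτ)

/-- Cutting off the high powers of `τ`. -/
theorem span_cut {B B' : Ideal R} (hle : B ≤ B') {τ : R} {k a L : ℕ} (ha : a ≤ L) {M : Set R}
    (h : ∀ q : R, ∃ s ∈ Submodule.span ℝ {y : R | ∃ j < k, ∃ g ∈ M, y = τ ^ j * g}, q - s ∈ B)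
    (hcut : ∀ g ∈ M, τ ^ a * g ∈ B') :
    ∀ q : R, ∃ s ∈ Submodule.span ℝ {y : R | ∃ j < L, ∃ g ∈ M, y = τ ^ j * g}, q - s ∈ B' := by
  intro q
  obtain ⟨s, hs, hq⟩ := h q
  have h1 : Submodule.span ℝ {y : R | ∃ j < k, ∃ g ∈ M, y = τ ^ j * g} ≤
      Submodule.span ℝ {y : R | ∃ j < L, ∃ g ∈ M, y = τ ^ j * g} ⊔ B'.restrictScalars ℝ := by
    rw [Submodule.span_le]
    rintro y ⟨j, _, g, hg, rfl⟩
    rcases lt_or_ge j a with hj | hj
    · exact Submodule.mem_sup_left (Submodule.subset_span ⟨j, by omega, g, hg, rfl⟩)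
    · apply Submodule.mem_sup_right
      show τ ^ j * g ∈ B'
      have : τ ^ j * g = τ ^ (j - a) * (τ ^ a * g) := by
        rw [← mul_assoc, ← pow_add]
        congr 2
        omega
      rw [this]
      exact B'.mul_mem_left _ (hcut g hg)
  obtain ⟨s', hs', b, hb, rfl⟩ := Submodule.mem_sup.1 (h1 hs)
  refine ⟨s', hs', ?_⟩
  have : q - s' = (q - (s' + b)) + b := by ring
  rw [this]
  exact B'.add_mem (hle hq) hb

/-- Cramer's rule. -/
theorem det_mem {ι : Type} [Fintype ι] [DecidableEq ι] {B : Ideal R} {τ : R} {k : ℕ} (hτ : τ ^ k ∈ B)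
    (g : ι → R) (G : R) (M : Matrix ι ι ℝ[X])
    (hM : ∀ i, G * g i - ∑ j, aeval τ (M i j) * g j ∈ B) (s : ℝ[X]) (a : ℕ)
    (h0 : ∀ l < a, ((-M).charpoly.eval s).coeff l = 0)
    (ha : ((-M).charpoly.eval s).coeff a ≠ 0) (i : ι) :
    τ ^ a * g i ∈ B ⊔ Ideal.span {G + aeval τ s} := by
  set F := G + aeval τ s with hF
  set J := B ⊔ Ideal.span {F} with hJ
  set ρ : ℝ[X] →+* R ⧸ J := (Ideal.Quotient.mk J).comp (aeval τ : ℝ[X] →ₐ[ℝ] R).toRingHom with hρ
  have hρa : ∀ p, ρ p = Ideal.Quotient.mk J (aeval τ p) := fun p => rfl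
  have hBJ : ∀ x ∈ B, Ideal.Quotient.mk J x = 0 := fun x hx =>
    Ideal.Quotient.eq_zero_iff_mem.2 (Ideal.mem_sup_left hx)
  have hFJ : Ideal.Quotient.mk J F = 0 :=
    Ideal.Quotient.eq_zero_iff_mem.2 (Ideal.mem_sup_right (Ideal.mem_span_singleton_self F))
  set N : Matrix ι ι ℝ[X] := Matrix.scalar ι s - (-M) with hN
  have hdet : (-M).charpoly.eval s = N.det := Matrix.eval_charpoly _ _
  set γ : ι → R ⧸ J := fun i => Ideal.Quotient.mk J (g i) with hγ
  have hNγ : (N.map ρ).mulVec γ = 0 := by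
    funext i
    have h1 : Ideal.Quotient.mk J (G * g i - ∑ j, aeval τ (M i j) * g j) = 0 := hBJ _ (hM i)
    have h2 : (N.map ρ).mulVec γ i = ρ s * γ i + ∑ j, ρ (M i j) * γ j := by
      show ∑ j, ρ (N i j) * γ j = _
      have h3 : ∀ j, ρ (N i j) * γ j = (if j = i then ρ s * γ i else 0) + ρ (M i j) * γ j := by
        intro j
        rw [hN, Matrix.sub_apply, Matrix.neg_apply, sub_neg_eq_add, map_add, add_mul]
        congr 1
        rw [Matrix.scalar_apply, Matrix.diagonal_apply]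
        split_ifs with h4 h5 h5
        · rw [h4]
        · exact absurd h4.symm h5
        · exact absurd h5.symm h4
        · rw [map_zero, zero_mul]
      rw [Finset.sum_congr rfl (fun j _ => h3 j), Finset.sum_add_distrib]
      congr 1
      rw [Finset.sum_ite_eq' Finset.univ i, if_pos (Finset.mem_univ i)]
    rw [h2, Pi.zero_apply]
    rw [map_sub, map_sum, map_mul] at h1
    have h5 : ∑ j, ρ (M i j) * γ j = Ideal.Quotient.mk J G * γ i := by
      rw [sub_eq_zero] at h1
      rw [h1]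
      refine Finset.sum_congr rfl fun j _ => ?_
      rw [map_mul]
      rfl
    rw [h5, ← add_mul]
    have h6 : ρ s + Ideal.Quotient.mk J G = 0 := by
      rw [hρa, ← map_add, add_comm]
      exact hFJ
    rw [h6, zero_mul]
  have hdetγ : ρ ((-M).charpoly.eval s) * γ i = 0 := by
    rw [hdet]
    have h1 : (N.map ρ).adjugate.mulVec ((N.map ρ).mulVec γ) = 0 := by
      rw [hNγ, Matrix.mulVec_zero]
    rw [Matrix.mulVec_mulVec, Matrix.adjugate_mul, Matrix.smul_mulVec, Matrix.one_mulVec] at h1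
    have h2 := congrFun h1 i
    rw [Pi.smul_apply, smul_eq_mul, Pi.zero_apply] at h2
    have h3 : (N.map ρ).det = ρ N.det := (RingHom.map_det ρ N).symm
    rw [← h3]
    exact h2
  obtain ⟨w, hw⟩ := X_pow_dvd_iff.2 h0
  have hw0 : w.coeff 0 ≠ 0 := by
    have : ((-M).charpoly.eval s).coeff a = w.coeff 0 := by
      rw [hw]
      have := coeff_X_pow_mul w a 0
      rwa [zero_add] at this
    rwa [← this]
  have hunit : IsUnit (ρ w) := by
    rw [← divX_mul_X_add w, map_add, map_mul]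
    have h1 : IsNilpotent (ρ (divX w) * ρ X) := by
      apply Commute.isNilpotent_mul_left (Commute.all _ _)
      refine ⟨k, ?_⟩
      rw [← map_pow, hρa, map_pow, aeval_X]
      exact hBJ _ hτ
    have h2 : IsUnit (ρ (C (w.coeff 0))) := by
      apply IsUnit.map
      rw [isUnit_C]
      exact isUnit_iff_ne_zero.2 hw0
    exact h1.isUnit_add_right_of_commute h2 (Commute.all _ _)
  have hfin : ρ w * (ρ (X ^ a) * γ i) = 0 := by
    rw [← mul_assoc, ← map_mul, mul_comm w, ← hw]
    exact hdetγ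
  have hfin2 : ρ (X ^ a) * γ i = 0 := (hunit.mul_right_eq_zero).1 hfin
  rw [← Ideal.Quotient.eq_zero_iff_mem, map_mul]
  rw [hρa, map_pow, aeval_X] at hfin2
  exact hfin2

end

theorem iterate_derivative_monic {A : Type} [CommRing A] {P : A[X]} (hP : P.Monic) :
    derivative^[P.natDegree] P = C (P.natDegree.factorial : A) := by
  ext m
  rw [coeff_iterate_derivative, coeff_C]
  split_ifs with h
  · rw [h, zero_add, Nat.descFactorial_self, ← Polynomial.leadingCoeff, hP.leadingCoeff]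
    simp
  · rw [coeff_eq_zero_of_natDegree_lt (by omega), smul_zero]

/-- The pigeonhole principle for the orders of vanishing. -/
theorem exists_type (n c : ℕ) (D : ℕ → ℝ[X]) (hn : (D n).coeff 0 ≠ 0)
    (h0 : ∀ l ≤ n * c, (D 0).coeff l = 0) :
    ∃ i < n, ∃ o ≤ n * c, (∀ l < o, (D (i + 1)).coeff l = 0) ∧ (D (i + 1)).coeff o ≠ 0 ∧
      ∀ l ≤ o + c, (D i).coeff l = 0 := by
  classical
  by_contra hcon
  push Not at hcon
  have key : ∀ m ≤ n, ∃ o ≤ m * c, (D (n - m)).coeff o ≠ 0 := by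
    intro m
    induction m with
    | zero => intro _; exact ⟨0, by omega, by simpa using hn⟩
    | succ m ih =>
      intro hm
      obtain ⟨o', ho', h1⟩ := ih (by omega)
      have hex : ∃ o, (D (n - m)).coeff o ≠ 0 := ⟨o', h1⟩
      set o := Nat.find hex with ho
      have ho1 : (D (n - m)).coeff o ≠ 0 := Nat.find_spec hex
      have ho2 : o ≤ o' := Nat.find_min' hex h1
      have ho3 : ∀ l < o, (D (n - m)).coeff l = 0 := by
        intro l hl
        by_contra h2
        exact Nat.find_min hex hl h2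
      have e1 : n - (m + 1) + 1 = n - m := by omega
      have hle : o ≤ m * c := ho2.trans ho'
      have hle2 : m * c ≤ n * c := Nat.mul_le_mul_right _ (by omega)
      obtain ⟨l, hl1, hl2⟩ := hcon (n - (m + 1)) (by omega) o (by omega) (by rw [e1]; exact ho3)
        (by rw [e1]; exact ho1)
      refine ⟨l, ?_, hl2⟩
      rw [Nat.succ_mul]
      omega
  obtain ⟨o, ho, h1⟩ := key n le_rfl
  rw [Nat.sub_self] at h1
  exact h1 (h0 o ho)

/-- Coefficientwise derivatives at `0`. -/
def CDer (f : ℝ → ℝ[X]) (f' : ℝ[X]) : Prop :=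
  ∀ l, HasDerivAt (fun θ => (f θ).coeff l) (f'.coeff l) 0

theorem CDer.const (p : ℝ[X]) : CDer (fun _ => p) 0 := by
  intro l
  simpa using hasDerivAt_const (0 : ℝ) (p.coeff l)

theorem CDer.add {f g : ℝ → ℝ[X]} {f' g' : ℝ[X]} (hf : CDer f f') (hg : CDer g g') :
    CDer (fun θ => f θ + g θ) (f' + g') := by
  intro l
  simp only [coeff_add]
  exact (hf l).add (hg l)

theorem CDer.mul {f g : ℝ → ℝ[X]} {f' g' : ℝ[X]} (hf : CDer f f') (hg : CDer g g') :
    CDer (fun θ => f θ * g θ) (f' * g 0 + f 0 * g') := by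
  intro l
  simp only [coeff_add, coeff_mul, ← Finset.sum_add_distrib]
  apply HasDerivAt.fun_sum
  intro x _
  exact (hf x.1).mul (hg x.2)

theorem CDer.pow {f : ℝ → ℝ[X]} {f' : ℝ[X]} (hf : CDer f f') (n : ℕ) :
    CDer (fun θ => f θ ^ n) (n * f 0 ^ (n - 1) * f') := by
  induction n with
  | zero =>
    simp only [pow_zero, Nat.cast_zero, zero_mul]
    exact CDer.const 1
  | succ n ih =>
    simp only [pow_succ]
    have h := ih.mul hf
    convert h using 1
    rcases Nat.eq_zero_or_pos n with rfl | hn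
    · simp
    · have : f 0 ^ n = f 0 ^ (n - 1) * f 0 := by
        rw [← pow_succ]
        congr 1
        omega
      rw [Nat.add_sub_cancel, this]
      push_cast
      ring

theorem CDer.eval {f : ℝ → ℝ[X]} {f' : ℝ[X]} (hf : CDer f f') (Q : ℝ[X][X]) :
    CDer (fun θ => Q.eval (f θ)) (Q.derivative.eval (f 0) * f') := by
  induction Q using Polynomial.induction_on' with
  | add p q hp hq =>
    simp only [eval_add, derivative_add, add_mul]
    exact hp.add hq
  | monomial n a =>
    simp only [eval_monomial, derivative_monomial]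
    have h := (CDer.const a).mul (hf.pow n)
    convert h using 1
    ring

/-- The family `s + θ σ`. -/
theorem CDer.line (s σ : ℝ[X]) : CDer (fun θ => s + C θ * σ) σ := by
  intro l
  simp only [coeff_add, coeff_C_mul]
  have := ((hasDerivAt_id (0 : ℝ)).mul_const (σ.coeff l)).const_add (s.coeff l)
  simpa using this

end Pool.Agent.L0h24.PF
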