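import Pool.Agent.L0h24.PF.Prev

set_option autoImplicit false

/-! The inductive step. -/

open MeasureTheory Set Topology Asymptotics Filter
open scoped ENNReal NNReal

namespace Pool.Agent.L0h24.PF

open Pool.Agent.H810R3.Tub (Vec)
open MvPolynomial

variable {d c : ℕ}

/-- The binomial expansion in a commutative ring. -/
theorem expandR {A : Type} [CommRing A] (m n : ℕ) (hn : n < m) (s a : A) :
    (a + s) ^ (n + 1) - a ^ (n + 1) =
      ∑ j : Fin m, s ^ ((j : ℕ) + 1) * (a ^ (n - (j : ℕ)) * ((n + 1).choose ((j : ℕ) + 1) : A)) := by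
  have h0 : ∑ j : Fin m, s ^ ((j : ℕ) + 1) * (a ^ (n - (j : ℕ)) * ((n + 1).choose ((j : ℕ) + 1) : A)) =
      ∑ j ∈ Finset.range m, s ^ (j + 1) * (a ^ (n - j) * ((n + 1).choose (j + 1) : A)) :=
    (Finset.sum_range (fun j => s ^ (j + 1) * (a ^ (n - j) * ((n + 1).choose (j + 1) : A)))).symm
  rw [h0, add_comm a s, add_pow, Finset.sum_range_succ']
  simp only [pow_zero, one_mul, Nat.sub_zero, Nat.choose_zero_right, Nat.cast_one, mul_one]
  rw [add_sub_cancel_right]
  have h1 : ∑ j ∈ Finset.range m, s ^ (j + 1) * (a ^ (n - j) * ((n + 1).choose (j + 1) : A)) =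
      ∑ j ∈ Finset.range (n + 1), s ^ (j + 1) * (a ^ (n - j) * ((n + 1).choose (j + 1) : A)) := by
    symm
    apply Finset.sum_subset
    · intro j hj
      rw [Finset.mem_range] at hj ⊢
      omega
    · intro j _ hj
      rw [Finset.mem_range] at hj
      rw [Nat.choose_eq_zero_of_lt (by omega)]
      simp
  rw [h1]
  refine Finset.sum_congr rfl fun j _ => ?_
  rw [Nat.add_sub_add_right]
  ring

/-- The directions in the space of the parameters. -/
noncomputable def dirs (r : Fin d) (e : EE d c) (j' : Fin c) : EE d c :=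
  (0, 0, Pi.single r (fun j : Fin c => (-(e.1 r)) ^ ((j' : ℕ) - (j : ℕ)) *
    (((j' : ℕ) + 1).choose ((j : ℕ) + 1) : ℝ)))

theorem dirs_fst (r : Fin d) (e : EE d c) (j' : Fin c) (θ : ℝ) : (e + θ • dirs r e j').1 = e.1 := by
  show e.1 + θ • (0 : Vec d) = e.1
  rw [smul_zero, add_zero]

theorem dirs_snd (r : Fin d) (e : EE d c) (j' : Fin c) (θ : ℝ) : (e + θ • dirs r e j').2.1 = e.2.1 := by
  show e.2.1 + θ • (0 : ℝ) = e.2.1
  rw [smul_zero, add_zero]

theorem dirs_par (r : Fin d) (e : EE d c) (j' : Fin c) (θ : ℝ) {i : Fin d} (hi : i ≠ r) :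
    (e + θ • dirs r e j').2.2 i = e.2.2 i := by
  show e.2.2 i + θ • (Pi.single r _ : Par d c) i = e.2.2 i
  rw [Pi.single_eq_of_ne hi, smul_zero, add_zero]

theorem ss_dirs (r : Fin d) (e : EE d c) (j' : Fin c) (θ : ℝ) :
    ss r (e + θ • dirs r e j') = ss r e + Polynomial.C θ * Polynomial.X ^ ((j' : ℕ) + 1) := by
  have h1 : ∀ j : Fin c, (e + θ • dirs r e j').2.2 r j = e.2.2 r j + θ * ((-(e.1 r)) ^ ((j' : ℕ) - (j : ℕ)) *
      (((j' : ℕ) + 1).choose ((j : ℕ) + 1) : ℝ)) := by
    intro j
    show e.2.2 r j + θ * (Pi.single r _ : Par d c) r j = _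
    rw [Pi.single_eq_same]
  unfold ss
  simp only [h1, dirs_fst, map_add, map_mul, add_mul, Finset.sum_add_distrib]
  congr 1
  have h2 : ∀ y : Polynomial ℝ, (-Polynomial.C (e.1 r) + y) ^ ((j' : ℕ) + 1) - (-Polynomial.C (e.1 r)) ^ ((j' : ℕ) + 1) =
      ∑ j : Fin c, y ^ ((j : ℕ) + 1) * ((-Polynomial.C (e.1 r)) ^ ((j' : ℕ) - (j : ℕ)) *
        (((j' : ℕ) + 1).choose ((j : ℕ) + 1) : Polynomial ℝ)) := fun y => expandR c j' j'.2 y _
  have h3 := h2 (Polynomial.C (e.1 r) + Polynomial.X)
  have h4 := h2 (Polynomial.C (e.1 r))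
  rw [neg_add_cancel_left] at h3
  rw [neg_add_cancel, zero_pow (Nat.succ_ne_zero _)] at h4
  have h5 : (Polynomial.X : Polynomial ℝ) ^ ((j' : ℕ) + 1) =
      ∑ j : Fin c, ((Polynomial.C (e.1 r) + Polynomial.X) ^ ((j : ℕ) + 1) - Polynomial.C (e.1 r) ^ ((j : ℕ) + 1)) *
        ((-Polynomial.C (e.1 r)) ^ ((j' : ℕ) - (j : ℕ)) *
        (((j' : ℕ) + 1).choose ((j : ℕ) + 1) : Polynomial ℝ)) := by
    simp only [sub_mul, Finset.sum_sub_distrib]
    rw [← h3, ← h4]
    ring
  rw [h5, Finset.mul_sum]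
  refine Finset.sum_congr rfl fun j _ => ?_
  simp only [map_pow, map_neg, map_natCast]
  ring

/-- The generators of the ideals. -/
noncomputable def genA (F : Fin d → MvPolynomial (Fin d) ℝ) (r : ℕ) (i : Fin d) :
    MvPolynomial (Fin d) ℝ := if (i : ℕ) < r then F i else X i

/-- The generators of the ideals, without the variable of index `r`. -/
noncomputable def genB (F : Fin d → MvPolynomial (Fin d) ℝ) (r : ℕ) (i : Fin d) :
    MvPolynomial (Fin d) ℝ := if (i : ℕ) < r then F i else if (i : ℕ) = r then 0 else X i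

theorem genA_le (k : ℕ) (F : Fin d → MvPolynomial (Fin d) ℝ) (r : Fin d) :
    idl k (genA F r) ≤ idl k (genB F r) ⊔ Ideal.span {X r} := by
  apply idl_le
  · intro i
    unfold genA
    split_ifs with h
    · apply Ideal.mem_sup_left
      have := gen_mem k (genB F r) i
      unfold genB at this
      rwa [if_pos h] at this
    · by_cases hi : (i : ℕ) = r
      · apply Ideal.mem_sup_right
        have : i = r := Fin.ext hi
        rw [this]
        exact Ideal.mem_span_singleton_self _
      · apply Ideal.mem_sup_left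
        have := gen_mem k (genB F r) i
        unfold genB at this
        rwa [if_neg h, if_neg hi] at this
  · exact le_trans le_sup_right le_sup_left

theorem genB_le (k : ℕ) (F : Fin d → MvPolynomial (Fin d) ℝ) (r : Fin d) :
    idl k (genB F r) ⊔ Ideal.span {F r} ≤ idl k (genA F (r + 1)) := by
  apply sup_le
  · apply idl_le
    · intro i
      unfold genB
      split_ifs with h h'
      · have := gen_mem k (genA F (r + 1)) i
        unfold genA at this
        rwa [if_pos (by omega)] at this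
      · exact Ideal.zero_mem _
      · have := gen_mem k (genA F (r + 1)) i
        unfold genA at this
        rwa [if_neg (by omega)] at this
    · exact le_sup_right
  · rw [Ideal.span_le, Set.singleton_subset_iff]
    have := gen_mem k (genA F (r + 1)) r
    unfold genA at this
    rwa [if_pos (by omega)] at this

/-- The variable of index `r`. -/
noncomputable def xr (d : ℕ) (r : ℕ) : MvPolynomial (Fin d) ℝ := if h : r < d then X ⟨r, h⟩ else 0

/-- The spanning monomials. -/
noncomputable def Mons (d c : ℕ) : ℕ → Finset (MvPolynomial (Fin d) ℝ)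
  | 0 => {1}
  | r + 1 => by
    classical
    exact ((Finset.range ((Mons d c r).card * c)) ×ˢ (Mons d c r)).image (fun a => xr d r ^ a.1 * a.2)

theorem mem_Mons_succ (r : ℕ) (y : MvPolynomial (Fin d) ℝ) : y ∈ Mons d c (r + 1) ↔
    ∃ j < (Mons d c r).card * c, ∃ g ∈ Mons d c r, y = xr d r ^ j * g := by
  classical
  have h0 : Mons d c (r + 1) = ((Finset.range ((Mons d c r).card * c)) ×ˢ (Mons d c r)).image
    (fun a => xr d r ^ a.1 * a.2) := rfl
  rw [h0, Finset.mem_image]
  constructor
  · rintro ⟨⟨j, g⟩, h, rfl⟩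
    rw [Finset.mem_product, Finset.mem_range] at h
    exact ⟨j, h.1, g, h.2, rfl⟩
  · rintro ⟨j, hj, g, hg, rfl⟩
    exact ⟨(j, g), by rw [Finset.mem_product, Finset.mem_range]; exact ⟨hj, hg⟩, rfl⟩

theorem card_Mons_succ (r : ℕ) : (Mons d c (r + 1)).card ≤ (Mons d c r).card * c * (Mons d c r).card := by
  classical
  have h0 : Mons d c (r + 1) = ((Finset.range ((Mons d c r).card * c)) ×ˢ (Mons d c r)).image
    (fun a => xr d r ^ a.1 * a.2) := rfl
  rw [h0]
  refine Finset.card_image_le.trans ?_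
  rw [Finset.card_product, Finset.card_range]

/-- The jets at stage `r` have finite multiplicity. -/
def Sp (k : ℕ) (c : ℕ) (F : Fin d → MvPolynomial (Fin d) ℝ) (r : ℕ) : Prop :=
  ∀ q : MvPolynomial (Fin d) ℝ, ∃ s ∈ Submodule.span ℝ (Mons d c r : Set (MvPolynomial (Fin d) ℝ)),
    q - s ∈ idl k (genA F r)

theorem Sp_zero (k : ℕ) (F : Fin d → MvPolynomial (Fin d) ℝ) : Sp k c F 0 := by
  intro q
  refine ⟨C (constantCoeff q), ?_, ?_⟩
  · have h1 : (C (constantCoeff q) : MvPolynomial (Fin d) ℝ) = constantCoeff q • (1 : MvPolynomial (Fin d) ℝ) := by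
      rw [smul_eq_C_mul, mul_one]
    rw [h1]
    apply Submodule.smul_mem
    apply Submodule.subset_span
    simp [Mons]
  · have h1 : q - C (constantCoeff q) ∈ idealOfVars (Fin d) ℝ := by
      have h2 := (mem_pow_idealOfVars_iff' 1 (q - C (constantCoeff q))).2 (by
        intro x hx
        have hx0 : x = 0 := by
          rw [← Finsupp.degree_eq_zero_iff]
          omega
        rw [hx0, coeff_sub, coeff_C, if_pos rfl]
        exact sub_self _)
      rwa [pow_one] at h2
    have h3 : idealOfVars (Fin d) ℝ ≤ idl k (genA F 0) := by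
      rw [idealOfVars, Ideal.span_le]
      rintro _ ⟨i, rfl⟩
      have := gen_mem k (genA F 0) i
      unfold genA at this
      rwa [if_neg (by omega)] at this
    exact h3 h1

end Pool.Agent.L0h24.PF
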