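import Mathlib

set_option autoImplicit false

/-! Linear systems depending on parameters, and dimensions of zero sets. -/

open MeasureTheory Set Topology Asymptotics Filter
open scoped ENNReal NNReal

namespace Pool.Agent.L0h24.PF

/-- A spanning family stays spanning, and the coefficients can be chosen smoothly. -/
theorem exists_solver {A F : Type} [Fintype A] [NormedAddCommGroup F] [NormedSpace ℝ F]
    [FiniteDimensional ℝ F] (w₀ : A → F) (h : ∀ q : F, ∃ c : A → ℝ, ∑ a, c a • w₀ a = q)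
    (n : WithTop ℕ∞) :
    ∃ S : (A → F) → (F →L[ℝ] (A → ℝ)), ContDiffAt ℝ n S w₀ ∧
      ∀ᶠ w in 𝓝 w₀, ∀ q, ∑ a, S w q a • w a = q := by
  have : CompleteSpace F := FiniteDimensional.complete ℝ F
  set T : (A → F) → ((A → ℝ) →L[ℝ] F) := fun w =>
    ∑ a, (ContinuousLinearMap.proj (R := ℝ) (φ := fun _ : A => ℝ) a).smulRight (w a) with hT
  have hTa : ∀ w c, T w c = ∑ a, c a • w a := by
    intro w c
    rw [hT]
    simp only
    rw [sum_apply]
    rfl
  have hTc : ContDiff ℝ n T := by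
    apply ContDiff.sum
    intro a _
    have h1 : ContDiff ℝ n (fun w : A → F => w a) := contDiff_apply ℝ F a
    exact (ContinuousLinearMap.smulRightL ℝ (A → ℝ) F (ContinuousLinearMap.proj a)).contDiff.comp h1
  have hsurj : Function.Surjective (T w₀ : (A → ℝ) →ₗ[ℝ] F) := by
    intro q
    obtain ⟨c, hc⟩ := h q
    exact ⟨c, by rw [← hc]; exact hTa _ _⟩
  obtain ⟨Ω, hΩ⟩ := LinearMap.exists_rightInverse_of_surjective _ (LinearMap.range_eq_top.2 hsurj)
  set Ω' : F →L[ℝ] (A → ℝ) := LinearMap.toContinuousLinearMap Ω with hΩ'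
  have hTΩ : (T w₀).comp Ω' = ContinuousLinearMap.id ℝ F := by
    ext q
    exact congrFun (congrArg DFunLike.coe hΩ) q
  set u : (A → F) → (F →L[ℝ] F) := fun w => (T w).comp Ω' with hu
  have huc : ContDiff ℝ n u := hTc.clm_comp contDiff_const
  have hu0 : u w₀ = ((1 : (F →L[ℝ] F)ˣ) : F →L[ℝ] F) := hTΩ
  have hinv : ContDiffAt ℝ n (fun w => Ring.inverse (u w)) w₀ := by
    apply ContDiffAt.comp w₀ (g := Ring.inverse) (f := u)
    · rw [hu0]
      exact contDiffAt_ringInverse ℝ 1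
    · exact huc.contDiffAt
  refine ⟨fun w => Ω'.comp (Ring.inverse (u w)), contDiffAt_const.clm_comp hinv, ?_⟩
  have hopen : ∀ᶠ w in 𝓝 w₀, IsUnit (u w) := by
    have h1 : {x : F →L[ℝ] F | IsUnit x} ∈ 𝓝 (u w₀) := by
      rw [hu0]
      exact Units.isOpen.mem_nhds (Units.isUnit 1)
    exact huc.continuous.continuousAt.preimage_mem_nhds h1
  filter_upwards [hopen] with w hw q
  rw [← hTa]
  have h1 : u w * Ring.inverse (u w) = 1 := Ring.mul_inverse_cancel _ hw
  exact congrFun (congrArg DFunLike.coe h1) q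

/-- The Hausdorff dimension is a local notion. -/
theorem dimH_local {E : Type} [EMetricSpace E] [SecondCountableTopology E] {s : Set E} {r : ℝ≥0∞}
    (h : ∀ x ∈ s, ∃ t ∈ 𝓝[s] x, dimH t ≤ r) : dimH s ≤ r := by
  by_contra hcon
  rw [not_le] at hcon
  obtain ⟨x, hx, h1⟩ := exists_mem_nhdsWithin_lt_dimH_of_lt_dimH hcon
  obtain ⟨t, ht, h2⟩ := h x hx
  exact absurd (h1 t ht) (not_lt.2 h2)

theorem dimH_submodule {E : Type} [NormedAddCommGroup E] [NormedSpace ℝ E] [FiniteDimensional ℝ E]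
    (W : Submodule ℝ E) : dimH (W : Set E) = Module.finrank ℝ W := by
  have h1 : (W : Set E) = W.subtypeₗᵢ '' univ := by
    ext x
    simp
  rw [h1, W.subtypeₗᵢ.isometry.dimH_image]
  exact Real.dimH_univ_eq_finrank W

/-- The dimension of the zero set of a submersion. -/
theorem dimH_submersion {E : Type} [NormedAddCommGroup E] [NormedSpace ℝ E] [FiniteDimensional ℝ E]
    {c : ℕ} {Z : Set E} (h : ∀ e ∈ Z, ∃ Ψ : E → (Fin c → ℝ), ContDiffAt ℝ 1 Ψ e ∧
      Function.Surjective (fderiv ℝ Ψ e) ∧ ∀ᶠ x in 𝓝[Z] e, Ψ x = 0) :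
    dimH Z ≤ ((Module.finrank ℝ E - c : ℕ) : ℝ≥0∞) := by
  have : CompleteSpace E := FiniteDimensional.complete ℝ E
  apply dimH_local
  intro e he
  obtain ⟨Ψ, hΨ, hs, hΨ0⟩ := h e he
  set A := fderiv ℝ Ψ e with hA
  have hsurj : Function.Surjective (A : E →ₗ[ℝ] (Fin c → ℝ)) := hs
  obtain ⟨B, hB⟩ := LinearMap.exists_rightInverse_of_surjective _ (LinearMap.range_eq_top.2 hsurj)
  set B' : (Fin c → ℝ) →L[ℝ] E := LinearMap.toContinuousLinearMap B with hB'
  have hAB : ∀ y, A (B' y) = y := fun y => congrFun (congrArg DFunLike.coe hB) y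
  set W : Submodule ℝ E := LinearMap.ker (A : E →ₗ[ℝ] (Fin c → ℝ)) with hW
  have hWdim : Module.finrank ℝ W = Module.finrank ℝ E - c := by
    have h1 := LinearMap.finrank_range_add_finrank_ker (A : E →ₗ[ℝ] (Fin c → ℝ))
    rw [LinearMap.range_eq_top.2 hsurj, finrank_top, Module.finrank_fin_fun] at h1
    have h2 : Module.finrank ℝ W = Module.finrank ℝ (LinearMap.ker (A : E →ₗ[ℝ] (Fin c → ℝ))) := rfl
    omega
  set H : E → E := fun x => B' (Ψ x) + (x - B' (A x)) with hH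
  have hHc : ContDiffAt ℝ 1 H e :=
    (B'.contDiff.contDiffAt.comp e hΨ).add
      (contDiffAt_id.sub (B'.contDiff.contDiffAt.comp e A.contDiff.contDiffAt))
  have hHd : HasFDerivAt H ((ContinuousLinearEquiv.refl ℝ E : E ≃L[ℝ] E) : E →L[ℝ] E) e := by
    have h1 : HasFDerivAt Ψ A e := (hΨ.differentiableAt one_ne_zero).hasFDerivAt
    have h2 : HasFDerivAt H (B'.comp A + (ContinuousLinearMap.id ℝ E - B'.comp A)) e :=
      (B'.hasFDerivAt.comp e h1).add ((hasFDerivAt_id e).sub (B'.hasFDerivAt.comp e A.hasFDerivAt))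
    convert h2 using 1
    rw [add_sub_cancel]
    rfl
  set Φ := hHc.toOpenPartialHomeomorph H hHd (by norm_num) with hΦ
  have hsrc : e ∈ Φ.source := hHc.mem_toOpenPartialHomeomorph_source hHd (by norm_num)
  have htgt : H e ∈ Φ.target := hHc.image_mem_toOpenPartialHomeomorph_target hHd (by norm_num)
  have hsymm0 : Φ.symm (H e) = e := Φ.left_inv hsrc
  have hsymm : ContDiffAt ℝ 1 Φ.symm (H e) := by
    apply Φ.contDiffAt_symm htgt (f₀' := ContinuousLinearEquiv.refl ℝ E)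
    · rw [hsymm0]; exact hHd
    · rw [hsymm0]; exact hHc
  obtain ⟨K, t, ht, hLip⟩ := hsymm.exists_lipschitzOnWith
  refine ⟨{x ∈ Z | x ∈ Φ.source ∧ Ψ x = 0 ∧ H x ∈ t}, ?_, ?_⟩
  · have h1 : ∀ᶠ x in 𝓝[Z] e, x ∈ Φ.source :=
      nhdsWithin_le_nhds (Φ.open_source.mem_nhds hsrc)
    have h2 : ∀ᶠ x in 𝓝[Z] e, H x ∈ t :=
      nhdsWithin_le_nhds (hHc.continuousAt.preimage_mem_nhds ht)
    filter_upwards [h1, h2, hΨ0, self_mem_nhdsWithin] with x hx1 hx2 hx3 hx4
    exact ⟨hx4, hx1, hx3, hx2⟩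
  · have hsub : {x ∈ Z | x ∈ Φ.source ∧ Ψ x = 0 ∧ H x ∈ t} ⊆ Φ.symm '' ((W : Set E) ∩ t) := by
      rintro x ⟨_, hx1, hx2, hx3⟩
      refine ⟨H x, ⟨?_, hx3⟩, Φ.left_inv hx1⟩
      show A (H x) = 0
      rw [hH]
      simp only
      rw [hx2, map_zero, zero_add, map_sub, hAB, sub_self]
    calc dimH {x ∈ Z | x ∈ Φ.source ∧ Ψ x = 0 ∧ H x ∈ t} ≤ dimH (Φ.symm '' ((W : Set E) ∩ t)) :=
          dimH_mono hsub
      _ ≤ dimH ((W : Set E) ∩ t) := (hLip.mono inter_subset_right).dimH_image_le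
      _ ≤ dimH (W : Set E) := dimH_mono inter_subset_left
      _ = ((Module.finrank ℝ E - c : ℕ) : ℝ≥0∞) := by rw [dimH_submodule, hWdim]

end Pool.Agent.L0h24.PF
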