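import Pool.Agent.L0h24.PF.Span
import Pool.Agent.L0h24.PF.Lin

set_option autoImplicit false

/-! Finite multiplicity bounds the number of the preimages. -/

open MeasureTheory Set Topology Asymptotics Filter
open scoped ENNReal NNReal RealInnerProductSpace

namespace Pool.Agent.L0h24.PF

open Pool.Agent.H810R3.Tub (Vec)
open MvPolynomial

variable {d : ℕ}

/-- The configurations of `k` points, with a height. -/
abbrev Cf (d k : ℕ) : Type := (Fin k → Vec d) × ℝ

/-- The points of a configuration. -/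
noncomputable def pts (k : ℕ) (v₀ : Vec d) (i : ℕ) (e : Cf d k) : Vec d :=
  if h : i < k then e.1 ⟨i, h⟩ else v₀

theorem pts_contDiff (k : ℕ) (v₀ : Vec d) (i : ℕ) {n : WithTop ℕ∞} : ContDiff ℝ n (pts k v₀ i) := by
  unfold pts
  split_ifs with h
  · exact (contDiff_pi.1 (contDiff_fst : ContDiff ℝ n (fun e : Cf d k => e.1))) ⟨i, h⟩
  · exact contDiff_const

/-- The functions which vanish on the fibres. -/
noncomputable def ff (k : ℕ) (b : Vec d → Vec d) (v₀ : Vec d) (j : Fin d) (m : Fin d →₀ ℕ)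
    (y : Cf d k × Vec d) : ℝ :=
  ((b y.2 j + y.1.2 * y.2 j) - (b (pts k v₀ 0 y.1) j + y.1.2 * (pts k v₀ 0 y.1) j)) *
    ev (y.2 - v₀) (monomial m 1)

theorem coord_cd {Y : Type} [NormedAddCommGroup Y] [NormedSpace ℝ Y] {n : WithTop ℕ∞}
    {f : Y → Vec d} (hf : ContDiff ℝ n f) (r : Fin d) : ContDiff ℝ n (fun e => f e r) :=
  (EuclideanSpace.proj (𝕜 := ℝ) r).contDiff.comp hf

theorem ff_contDiff {k : ℕ} {b : Vec d → Vec d} (hb : ContDiff ℝ k b) (v₀ : Vec d) (j : Fin d)
    (m : Fin d →₀ ℕ) : ContDiff ℝ k (ff k b v₀ j m) := by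
  unfold ff
  have h1 : ContDiff ℝ k (fun y : Cf d k × Vec d => b y.2 j) := coord_cd (hb.comp contDiff_snd) j
  have h2 : ContDiff ℝ k (fun y : Cf d k × Vec d => y.1.2) := contDiff_snd.comp contDiff_fst
  have h3 : ContDiff ℝ k (fun y : Cf d k × Vec d => y.2 j) := coord_cd contDiff_snd j
  have h4 : ContDiff ℝ k (fun y : Cf d k × Vec d => pts k v₀ 0 y.1) :=
    (pts_contDiff k v₀ 0).comp contDiff_fst
  have h5 : ContDiff ℝ k (fun y : Cf d k × Vec d => b (pts k v₀ 0 y.1) j) := coord_cd (hb.comp h4) j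
  have h6 : ContDiff ℝ k (fun y : Cf d k × Vec d => (pts k v₀ 0 y.1) j) := coord_cd h4 j
  apply ContDiff.mul
  · exact (h1.add (h2.mul h3)).sub (h5.add (h2.mul h6))
  · simp only [ev_monomial]
    apply ContDiff.mul contDiff_const
    apply contDiff_prod
    intro i _
    exact (coord_cd (contDiff_snd.sub contDiff_const) i).pow _

/-- The polynomials which interpolate them. -/
noncomputable def ww {k : ℕ} (b : Vec d → Vec d) (v₀ : Vec d) (M : Finset (MvPolynomial (Fin d) ℝ))
    (e : Cf d k) : ((Fin d × mons d k) ⊕ M) → (mons d k → ℝ)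
  | Sum.inl a => kap d k (interp k (pts k v₀) (fun _ => v₀) (ff k b v₀ a.1 a.2) e)
  | Sum.inr g => kap d k g

theorem ww_continuous {k : ℕ} {b : Vec d → Vec d} (hb : ContDiff ℝ k b) (v₀ : Vec d)
    (M : Finset (MvPolynomial (Fin d) ℝ)) : Continuous (ww (k := k) b v₀ M) := by
  apply continuous_pi
  rintro (a | g)
  · apply continuous_pi
    intro m
    have h1 := interp_contDiff (E := Cf d k) (c := fun _ => v₀) 0 k (pts k v₀) (ff k b v₀ a.1 a.2)
      (ff_contDiff hb v₀ a.1 a.2) (fun i => pts_contDiff k v₀ i) contDiff_const m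
    exact h1.continuous
  · exact continuous_const

theorem ww_base {k : ℕ} {b : Vec d → Vec d} (hb : ContDiff ℝ k b) {v₀ : Vec d} {t₀ : ℝ}
    (M : Finset (MvPolynomial (Fin d) ℝ)) {F : Fin d → MvPolynomial (Fin d) ℝ}
    (hF : ∀ r, (fun z : Vec d => (b (v₀ + z) r + t₀ * (v₀ + z) r) - (b v₀ r + t₀ * v₀ r) - ev z (F r))
      =O[𝓝 0] fun z => ‖z‖ ^ k) :
    ww b v₀ M ((fun _ => v₀, t₀) : Cf d k) = fam k F (fun g : M => (g : MvPolynomial (Fin d) ℝ)) := by
  funext a
  rcases a with ⟨j, m⟩ | g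
  · show kap d k _ = kap d k _
    rw [← sub_eq_zero, ← map_sub, kap_eq_zero]
    apply poly_O
    set e : Cf d k := (fun _ => v₀, t₀) with he
    have hp : ∀ i, pts k v₀ i e = v₀ := by
      intro i
      unfold pts
      split_ifs <;> rfl
    have h1 := interp_isBigO (E := Cf d k) (c := fun _ => v₀) e k (pts k v₀) (ff k b v₀ j m)
      (ff_contDiff hb v₀ j m) (fun i => pts_contDiff k v₀ i) hp
    have h2 : (fun z : Vec d => ff k b v₀ j m (e, v₀ + z) - ev z (F j * monomial (m : Fin d →₀ ℕ) 1))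
        =O[𝓝 0] fun z => ‖z‖ ^ k := by
      have h3 : (fun z : Vec d => ff k b v₀ j m (e, v₀ + z) - ev z (F j * monomial (m : Fin d →₀ ℕ) 1)) =
          fun z => ((b (v₀ + z) j + t₀ * (v₀ + z) j) - (b v₀ j + t₀ * v₀ j) - ev z (F j)) *
            ev z (monomial (m : Fin d →₀ ℕ) 1) := by
        funext z
        unfold ff
        simp only [hp, map_mul, add_sub_cancel_left]
        rw [he]
        ring
      rw [h3]
      have h4 : (fun z : Vec d => ev z (monomial (m : Fin d →₀ ℕ) (1 : ℝ))) =O[𝓝 0] fun _ => (1 : ℝ) := by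
        have h5 : Continuous fun z : Vec d => ev z (monomial (m : Fin d →₀ ℕ) (1 : ℝ)) := by
          simp only [ev_monomial]
          have h6 : ∀ i : Fin d, Continuous fun z : Vec d => z i := fun i =>
            (EuclideanSpace.proj (𝕜 := ℝ) i).continuous
          exact continuous_const.mul (continuous_finsetProd _ fun i _ => (h6 i).pow _)
        exact (h5.tendsto 0).isBigO_one ℝ
      simpa using (hF j).mul h4
    refine (h2.sub h1).congr_left fun z => ?_
    rw [map_sub]
    ring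
  · rfl

theorem few_of_span {k : ℕ} {b : Vec d → Vec d} (hb : ContDiff ℝ k b) {v₀ : Vec d} {t₀ : ℝ}
    {M : Finset (MvPolynomial (Fin d) ℝ)} (hM : M.card < k) {F : Fin d → MvPolynomial (Fin d) ℝ}
    (hF : ∀ r, (fun z : Vec d => (b (v₀ + z) r + t₀ * (v₀ + z) r) - (b v₀ r + t₀ * v₀ r) - ev z (F r))
      =O[𝓝 0] fun z => ‖z‖ ^ k)
    (hspan : ∀ q : MvPolynomial (Fin d) ℝ, ∃ s ∈ Submodule.span ℝ (M : Set (MvPolynomial (Fin d) ℝ)),
      q - s ∈ idl k F) :
    ∃ U ∈ 𝓝 v₀, ∃ ε : ℝ, 0 < ε ∧ ∀ t : ℝ, |t - t₀| < ε → ∀ (x : Vec d) (V : Finset (Vec d)),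
      (∀ v ∈ V, v ∈ U ∧ b v + t • v = x) → V.card < k := by
  classical
  have hk : 0 < k := by omega
  set e₀ : Cf d k := (fun _ => v₀, t₀) with he₀
  have hrange : Set.range (fun g : M => (g : MvPolynomial (Fin d) ℝ)) = (M : Set (MvPolynomial (Fin d) ℝ)) := by
    ext y
    simp
  obtain ⟨S, _, hS⟩ := exists_solver (ww b v₀ M e₀) (by
    rw [ww_base hb M hF]
    apply fam_span
    rw [hrange]
    exact hspan) 0
  have hev : ∀ᶠ e in 𝓝 e₀, ∀ q, ∑ a, S (ww b v₀ M e) q a • ww b v₀ M e a = q :=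
    (ww_continuous hb v₀ M).continuousAt.eventually hS
  rw [he₀, nhds_prod_eq] at hev
  obtain ⟨A, hA, B, hB, hAB⟩ := mem_prod_iff.1 hev
  obtain ⟨δ, hδ, hδA⟩ := Metric.mem_nhds_iff.1 hA
  obtain ⟨ε, hε, hεB⟩ := Metric.mem_nhds_iff.1 hB
  refine ⟨Metric.ball v₀ δ, Metric.ball_mem_nhds v₀ hδ, ε, hε, ?_⟩
  intro t ht x V hV
  by_contra hcon
  rw [not_lt] at hcon
  obtain ⟨T, hTV, hT⟩ := Finset.exists_subset_card_eq hcon
  set en := Finset.equivFinOfCardEq hT with hen
  set P : Fin k → Vec d := fun i => (en.symm i : Vec d) with hP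
  have hPinj : Function.Injective P := Subtype.val_injective.comp en.symm.injective
  have hPV : ∀ i, P i ∈ V := fun i => hTV (en.symm i).2
  set e : Cf d k := (P, t) with he
  have hsol : ∀ q, ∑ a, S (ww b v₀ M e) q a • ww b v₀ M e a = q := by
    have h1 : (P, t) ∈ A ×ˢ B := by
      constructor
      · apply hδA
        rw [Metric.mem_ball, dist_pi_lt_iff hδ]
        intro i
        exact (hV _ (hPV i)).1
      · apply hεB
        rw [Metric.mem_ball, Real.dist_eq]
        exact ht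
    exact hAB h1
  have hpts : ∀ i (hi : i < k), pts k v₀ i e = P ⟨i, hi⟩ := by
    intro i hi
    unfold pts
    rw [dif_pos hi]
  have hval : ∀ i j, b (P i) j + t * (P i) j = x j := by
    intro i j
    rw [← (hV _ (hPV i)).2]
    rfl
  -- the interpolating polynomials vanish on the configuration
  have hzero : ∀ (j : Fin d) (m : Fin d →₀ ℕ) (i : Fin k),
      ev (P i - v₀) (interp k (pts k v₀) (fun _ => v₀) (ff k b v₀ j m) e) = 0 := by
    intro j m i
    have h1 := interp_eval (E := Cf d k) (fun _ => v₀) e k (pts k v₀) (ff k b v₀ j m)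
      (ff_contDiff hb v₀ j m) (fun i => pts_contDiff k v₀ i) i i.2
    rw [hpts i i.2] at h1
    rw [h1]
    unfold ff
    simp only
    rw [hpts 0 hk, hval, hval, sub_self, zero_mul]
  -- the weights
  set Tm : (Fin k → ℝ) →ₗ[ℝ] (M → ℝ) :=
    ∑ i : Fin k, (LinearMap.proj i : (Fin k → ℝ) →ₗ[ℝ] ℝ).smulRight
      (fun g : M => ev (P i - v₀) (lift d k (kap d k (g : MvPolynomial (Fin d) ℝ)))) with hTm
  have hTma : ∀ μ g, Tm μ g = ∑ i, μ i * ev (P i - v₀) (lift d k (kap d k (g : MvPolynomial (Fin d) ℝ))) := by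
    intro μ g
    rw [hTm, LinearMap.sum_apply, Finset.sum_apply]
    rfl
  have hker : LinearMap.ker Tm ≠ ⊥ := by
    apply LinearMap.ker_ne_bot_of_finrank_lt
    rw [Module.finrank_fintype_fun_eq_card, Module.finrank_fintype_fun_eq_card, Fintype.card_coe,
      Fintype.card_fin]
    exact hM
  obtain ⟨μ, hμ, hμ0⟩ := Submodule.exists_mem_ne_zero_of_ne_bot hker
  have hμM : ∀ g : M, ∑ i, μ i * ev (P i - v₀) (lift d k (kap d k (g : MvPolynomial (Fin d) ℝ))) = 0 := by
    intro g
    rw [← hTma]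
    exact congrFun (LinearMap.mem_ker.1 hμ) g
  have hΛ : ∀ q : mons d k → ℝ, ∑ i, μ i * ev (P i - v₀) (lift d k q) = 0 := by
    intro q
    rw [← hsol q]
    have hev_smul : ∀ (z : Vec d) (a : ℝ) (p : MvPolynomial (Fin d) ℝ), ev z (a • p) = a * ev z p := by
      intro z a p
      rw [smul_eq_C_mul, map_mul, ev_C]
    simp only [map_sum, map_smul, hev_smul, Finset.mul_sum]
    rw [Finset.sum_comm]
    apply Finset.sum_eq_zero
    intro a _
    have h1 : ∀ i, μ i * (S (ww b v₀ M e) q a * ev (P i - v₀) (lift d k (ww b v₀ M e a))) =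
        S (ww b v₀ M e) q a * (μ i * ev (P i - v₀) (lift d k (ww b v₀ M e a))) := by
      intro i
      ring
    simp only [h1]
    rw [← Finset.mul_sum]
    have h2 : ∑ i, μ i * ev (P i - v₀) (lift d k (ww b v₀ M e a)) = 0 := by
      rcases a with ⟨j, m⟩ | g
      · apply Finset.sum_eq_zero
        intro i _
        have h3 : lift d k (ww b v₀ M e (Sum.inl (j, m))) =
            interp k (pts k v₀) (fun _ => v₀) (ff k b v₀ j m) e :=
          lift_kap (interp_coeff (fun _ => v₀) e k (pts k v₀) (ff k b v₀ j m))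
        rw [h3, hzero, mul_zero]
      · exact hμM g
    rw [h2, mul_zero]
  -- the weights vanish
  apply hμ0
  funext i₀
  set φ : Cf d k × Vec d → ℝ := fun y => ∏ j ∈ Finset.univ.erase i₀, ⟪y.2 - P j, P i₀ - P j⟫ with hφ
  have hφc : ContDiff ℝ k φ := by
    apply contDiff_prod
    intro j _
    exact (contDiff_snd.sub contDiff_const).inner ℝ contDiff_const
  set Q := interp k (pts k v₀) (fun _ => v₀) φ e with hQ
  have hQe : ∀ i : Fin k, ev (P i - v₀) Q = φ (e, P i) := by
    intro i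
    have h1 := interp_eval (E := Cf d k) (fun _ => v₀) e k (pts k v₀) φ hφc
      (fun i => pts_contDiff k v₀ i) i i.2
    rw [hpts i i.2] at h1
    exact h1
  have h1 := hΛ (kap d k Q)
  rw [lift_kap (interp_coeff (fun _ => v₀) e k (pts k v₀) φ), Finset.sum_eq_single i₀] at h1
  · rcases mul_eq_zero.1 h1 with h2 | h2
    · exact h2
    · exfalso
      rw [hQe] at h2
      obtain ⟨j, hj, hj'⟩ := Finset.prod_eq_zero_iff.1 h2
      have h3 : P i₀ - P j = 0 := inner_self_eq_zero.1 hj'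
      have h4 : i₀ = j := hPinj (sub_eq_zero.1 h3)
      exact (Finset.ne_of_mem_erase hj) h4.symm
  · intro i _ hi
    rw [hQe]
    have h2 : φ (e, P i) = 0 := by
      apply Finset.prod_eq_zero (Finset.mem_erase.2 ⟨hi, Finset.mem_univ i⟩)
      simp only [sub_self]
      exact inner_zero_left _
    rw [h2, mul_zero]
  · intro hh
    exact absurd (Finset.mem_univ _) hh

end Pool.Agent.L0h24.PF
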