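import Pool.Agent.L0h24.PF.AE
import Pool.Agent.L0h24.PF.Few
import Pool.Agent.L0h24.PF.Glob

set_option autoImplicit false

/-! Almost every diagonal polynomial perturbation of a family of lines has locally bounded
multiplicities. -/

open MeasureTheory Set Topology Asymptotics Filter
open scoped ENNReal NNReal

namespace Pool.Agent.L0h24.PF

open Pool.Agent.H810R3.Tub (Vec)
open MvPolynomial

variable {d c : ℕ}

/-- The diagonal perturbation of a family of lines. -/
noncomputable def dpert (b : Vec d → Vec d) (p : Par d c) (u : Vec d) : Vec d :=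
  b u + WithLp.toLp 2 (fun r => ∑ j : Fin c, p r j * (u r) ^ ((j : ℕ) + 1))

theorem dpert_apply (b : Vec d → Vec d) (p : Par d c) (u : Vec d) (r : Fin d) :
    dpert b p u r = b u r + ∑ j : Fin c, p r j * (u r) ^ ((j : ℕ) + 1) := rfl

theorem dpert_contDiff {n : WithTop ℕ∞} {b : Vec d → Vec d} (hb : ContDiff ℝ n b) (p : Par d c) :
    ContDiff ℝ n (dpert b p) := by
  rw [contDiff_euclidean]
  intro r
  simp only [dpert_apply]
  apply (coord_cd hb r).add
  apply ContDiff.sum
  intro j _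
  exact contDiff_const.mul ((coord_cd contDiff_id r).pow _)

theorem dpert_jet {k : ℕ} {b : Vec d → Vec d} (hb : ContDiff ℝ k b) (p : Par d c) (v : Vec d) (t : ℝ)
    (r : Fin d) :
    (fun z : Vec d => (dpert b p (v + z) r + t * (v + z) r) - (dpert b p v r + t * v r) -
      ev z (FF k b r ((v, t, p) : EE d c))) =O[𝓝 0] fun z => ‖z‖ ^ k := by
  refine (beta_isBigO hb r v).congr_left fun z => ?_
  have h1 : ev z (Polynomial.aeval (X r : MvPolynomial (Fin d) ℝ) (ss r ((v, t, p) : EE d c))) =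
      ∑ j : Fin c, p r j * ((v r + z r) ^ ((j : ℕ) + 1) - (v r) ^ ((j : ℕ) + 1)) := by
    unfold ss
    simp only [map_sum, map_mul, map_sub, map_pow, map_add, Polynomial.aeval_C, Polynomial.aeval_X,
      algebraMap_eq, ev_C, ev_X]
  unfold FF GG
  rw [map_add, h1, map_add, map_sub, map_mul, ev_C, ev_C, ev_X, dpert_apply, dpert_apply]
  have h2 : (v + z) r = v r + z r := rfl
  rw [h2]
  simp only [mul_sub, Finset.sum_sub_distrib]
  ring

theorem card_Mons (r : ℕ) : (Mons d c r).card ≤ c ^ (2 ^ r - 1) := by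
  induction r with
  | zero =>
    simp [Mons]
  | succ r ih =>
    refine (card_Mons_succ r).trans ?_
    have h1 : 2 ^ (r + 1) - 1 = (2 ^ r - 1) + 1 + (2 ^ r - 1) := by
      have : 1 ≤ 2 ^ r := Nat.one_le_two_pow
      rw [pow_succ]
      omega
    rw [h1, pow_add, pow_succ]
    exact Nat.mul_le_mul (Nat.mul_le_mul_right _ ih) ih

theorem genA_self (k : ℕ) (F : Fin d → MvPolynomial (Fin d) ℝ) : idl k (genA F d) = idl k F := by
  congr 1
  funext i
  unfold genA
  rw [if_pos i.2]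

/-- The local bound for the multiplicities. -/
theorem locFin_of_Sp {b : Vec d → Vec d} (hb : ContDiff ℝ ((Mons d c d).card + 1 : ℕ) b) (p : Par d c)
    {v : Vec d} (h : ∀ t : ℝ, Sp ((Mons d c d).card + 1) c
      (fun i => FF ((Mons d c d).card + 1) b i ((v, t, p) : EE d c)) d) :
    LocFin (Mons d c d).card (dpert b p) v := by
  refine ⟨((dpert_contDiff hb p).of_le (by
    exact_mod_cast (show 1 ≤ (Mons d c d).card + 1 by omega))).contDiffAt, ?_⟩
  intro t₀
  obtain ⟨U, hU, ε, hε, hf⟩ := few_of_span (k := (Mons d c d).card + 1) (dpert_contDiff hb p)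
    (v₀ := v) (t₀ := t₀) (M := Mons d c d) (Nat.lt_succ_self _)
    (fun r => dpert_jet hb p v t₀ r) (by
      have h1 := h t₀
      unfold Sp at h1
      rw [genA_self] at h1
      exact h1)
  exact ⟨U, hU, ε, hε, fun t ht x V hV => Nat.lt_succ_iff.1 (hf t ht x V hV)⟩

/-- **Almost every diagonal perturbation has locally bounded multiplicities.** -/
theorem prevalent (hd : 1 ≤ d) {b : Vec d → Vec d} (hb : ContDiff ℝ ((d + 2) ^ (2 ^ d) : ℕ) b) :
    ∀ᵐ p : Par d (d + 2), ∀ v : Vec d, LocFin ((d + 2) ^ (2 ^ d - 1)) (dpert b p) v := by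
  set N := (Mons d (d + 2) d).card with hN
  have hN1 : N ≤ (d + 2) ^ (2 ^ d - 1) := card_Mons d
  have h1 : (d + 2) ^ (2 ^ d) = (d + 2) ^ (2 ^ d - 1) * (d + 2) := by
    rw [← pow_succ]
    congr 1
    have : 1 ≤ 2 ^ d := Nat.one_le_two_pow
    omega
  have h2 : 1 ≤ (d + 2) ^ (2 ^ d - 1) := Nat.one_le_pow _ _ (by omega)
  have h3 : N + 1 + 1 ≤ (d + 2) ^ (2 ^ d) := by
    rw [h1]
    nlinarith
  have hb1 : ContDiff ℝ (N + 1 + 1 : ℕ) b := hb.of_le (by exact_mod_cast h3)
  have hb2 : ContDiff ℝ (N + 1 : ℕ) b := hb.of_le (by exact_mod_cast (show N + 1 ≤ (d + 2) ^ (2 ^ d) by omega))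
  filter_upwards [finite_ae hb1] with p hp v
  obtain ⟨h4, h5⟩ := locFin_of_Sp hb2 p (fun t => hp v t)
  refine ⟨h4, fun t₀ => ?_⟩
  obtain ⟨U, hU, ε, hε, h6⟩ := h5 t₀
  exact ⟨U, hU, ε, hε, fun t ht x V hV => (h6 t ht x V hV).trans hN1⟩

end Pool.Agent.L0h24.PF
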