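import Pool.Agent.L0h24.PF.Par
import Pool.Agent.H810R3.Tub.Core

set_option autoImplicit false

/-! Interpolation by polynomials in several variables, depending smoothly on parameters. -/

open MeasureTheory Set Topology Asymptotics Filter

namespace Pool.Agent.L0h24.PF

open Pool.Agent.H810R3.Tub (Vec)
open MvPolynomial

variable {d : ℕ} {E : Type} [NormedAddCommGroup E] [NormedSpace ℝ E]

/-- The quotient of Hadamard's lemma. -/
noncomputable def Hq (f : E × Vec d → ℝ) (u : E → Vec d) (l : Fin d) (y : E × Vec d) : ℝ :=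
  ∫ s in (0 : ℝ)..1, fderiv ℝ f (y.1, u y.1 + s • (y.2 - u y.1)) (0, EuclideanSpace.single l 1)

theorem Hq_contDiff [FiniteDimensional ℝ E] {n : ℕ} {f : E × Vec d → ℝ}
    (hf : ContDiff ℝ (n + 1 : ℕ) f) {u : E → Vec d}
    (hu : ContDiff ℝ n u) (l : Fin d) : ContDiff ℝ n (Hq f u l) := by
  unfold Hq
  refine contDiff_integral n ℝ (fun z : (E × Vec d) × ℝ =>
    fderiv ℝ f (z.1.1, u z.1.1 + z.2 • (z.1.2 - u z.1.1)) (0, EuclideanSpace.single l 1)) ?_
  have h1 : ContDiff ℝ n (fderiv ℝ f) := hf.fderiv_right (by norm_cast)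
  have h2 : ContDiff ℝ n (fun z : (E × Vec d) × ℝ => u z.1.1) :=
    hu.comp (contDiff_fst.comp contDiff_fst)
  refine (h1.comp ?_).clm_apply contDiff_const
  refine (contDiff_fst.comp contDiff_fst).prodMk (h2.add ?_)
  exact contDiff_snd.smul ((contDiff_snd.comp contDiff_fst).sub h2)

theorem hadamard {f : E × Vec d → ℝ} (hf : ContDiff ℝ 1 f) (u : E → Vec d) (e : E) (x : Vec d) :
    f (e, x) = f (e, u e) + ∑ l, (x - u e) l * Hq f u l (e, x) := by
  have hd : Differentiable ℝ f := hf.differentiable one_ne_zero
  have hfc : Continuous (fderiv ℝ f) := hf.continuous_fderiv one_ne_zero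
  have hline : Continuous fun s : ℝ => ((e, u e + s • (x - u e)) : E × Vec d) := by fun_prop
  have h1 : ∀ s : ℝ, HasDerivAt (fun s : ℝ => f (e, u e + s • (x - u e)))
      (fderiv ℝ f (e, u e + s • (x - u e)) (0, x - u e)) s := by
    intro s
    have h2 : HasDerivAt (fun s : ℝ => ((e, u e + s • (x - u e)) : E × Vec d)) (0, x - u e) s := by
      apply HasDerivAt.prodMk (hasDerivAt_const s e)
      have := ((hasDerivAt_id s).smul_const (x - u e)).const_add (u e)
      simpa using this
    exact (hd _).hasFDerivAt.comp_hasDerivAt s h2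
  have hint : ∀ w : E × Vec d, IntervalIntegrable
      (fun s : ℝ => fderiv ℝ f (e, u e + s • (x - u e)) w) volume 0 1 := by
    intro w
    exact ((hfc.comp hline).clm_apply continuous_const).intervalIntegrable _ _
  have h3 := intervalIntegral.integral_eq_sub_of_hasDerivAt (a := 0) (b := 1)
    (fun s _ => h1 s) (hint _)
  rw [one_smul, zero_smul, add_zero, add_sub_cancel] at h3
  have h4 : ∀ s : ℝ, fderiv ℝ f (e, u e + s • (x - u e)) (0, x - u e) =
      ∑ l, (x - u e) l * fderiv ℝ f (e, u e + s • (x - u e)) (0, EuclideanSpace.single l 1) := by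
    intro s
    have h5 : ((0, x - u e) : E × Vec d) =
        ∑ l, (x - u e) l • ((0, EuclideanSpace.single l (1 : ℝ)) : E × Vec d) := by
      refine Prod.ext ?_ ?_
      · rw [Prod.fst_sum]
        simp
      · rw [Prod.snd_sum]
        ext i
        have h6 : ∀ y : Vec d, y i = (EuclideanSpace.proj i : Vec d →L[ℝ] ℝ) y := fun y => rfl
        rw [h6 (∑ l, _), map_sum, Finset.sum_eq_single i]
        · simp
        · intro j _ hj
          simp [hj]
        · intro hh
          exact absurd (Finset.mem_univ _) hh
    conv_lhs => rw [h5]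
    rw [map_sum]
    refine Finset.sum_congr rfl fun l _ => ?_
    rw [map_smul, smul_eq_mul]
  rw [intervalIntegral.integral_congr (fun s _ => h4 s), intervalIntegral.integral_finsetSum
    (fun l _ => (hint _).const_mul _)] at h3
  have h7 : ∀ l, ∫ s in (0 : ℝ)..1, (x - u e) l *
      fderiv ℝ f (e, u e + s • (x - u e)) (0, EuclideanSpace.single l 1) =
      (x - u e) l * Hq f u l (e, x) := by
    intro l
    rw [intervalIntegral.integral_const_mul]
    rfl
  rw [Finset.sum_congr rfl (fun l _ => h7 l)] at h3
  linarith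

/-- The interpolation polynomial of `f` at the points `us 0 e, …, us (k - 1) e`, in the coordinates
centred at `c e`. -/
noncomputable def interp : ℕ → (ℕ → E → Vec d) → (E → Vec d) → (E × Vec d → ℝ) → E →
    MvPolynomial (Fin d) ℝ
  | 0, _, _, _, _ => 0
  | k + 1, us, c, f, e => C (f (e, us 0 e)) +
      ∑ l, (X l - C ((us 0 e - c e) l)) * interp k (fun i => us (i + 1)) c (Hq f (us 0) l) e

/-- Evaluation. -/
noncomputable def ev (z : Vec d) : MvPolynomial (Fin d) ℝ →+* ℝ := eval (fun l => z l)

theorem ev_C (z : Vec d) (a : ℝ) : ev z (C a) = a := by unfold ev; simp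

theorem ev_X (z : Vec d) (l : Fin d) : ev z (X l) = z l := by unfold ev; simp

/-- The interpolation property. -/
theorem interp_eval [FiniteDimensional ℝ E] (c : E → Vec d) (e : E) : ∀ (k : ℕ) (us : ℕ → E → Vec d)
    (f : E × Vec d → ℝ),
    ContDiff ℝ k f → (∀ i, ContDiff ℝ k (us i)) → ∀ i < k,
      ev (us i e - c e) (interp k us c f e) = f (e, us i e) := by
  intro k
  induction k with
  | zero => intro us f _ _ i hi; omega
  | succ k ih =>
    intro us f hf hus i hi
    have h1 : ContDiff ℝ 1 f := hf.of_le (by exact_mod_cast (show 1 ≤ k + 1 by omega))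
    rw [interp, map_add, map_sum, ev_C]
    simp only [map_mul, map_sub, ev_C, ev_X]
    have h2 : ∀ l : Fin d, (us i e - c e) l - (us 0 e - c e) l = (us i e - us 0 e) l := by
      intro l
      simp
    simp only [h2]
    rcases Nat.eq_zero_or_pos i with rfl | hi0
    · simp
    · obtain ⟨j, rfl⟩ : ∃ j, i = j + 1 := ⟨i - 1, by omega⟩
      rw [hadamard h1 (us 0) e (us (j + 1) e)]
      congr 1
      refine Finset.sum_congr rfl fun l _ => ?_
      rw [ih (fun i => us (i + 1)) (Hq f (us 0) l) (Hq_contDiff hf ((hus 0).of_le (by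
        exact_mod_cast Nat.le_succ k)) l) (fun i => (hus (i + 1)).of_le (by
        exact_mod_cast Nat.le_succ k)) j (by omega)]

/-- The interpolation polynomial depends smoothly on the parameters. -/
theorem interp_contDiff [FiniteDimensional ℝ E] {c : E → Vec d} (j : ℕ) :
    ∀ (k : ℕ) (us : ℕ → E → Vec d) (f : E × Vec d → ℝ),
    ContDiff ℝ (k + j : ℕ) f → (∀ i, ContDiff ℝ (k + j : ℕ) (us i)) → ContDiff ℝ (k + j : ℕ) c → ∀ m,
      ContDiff ℝ j (fun e => coeff m (interp k us c f e)) := by
  classical
  intro k
  induction k with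
  | zero => intro us f _ _ _ m; simp only [interp, coeff_zero]; exact contDiff_const
  | succ k ih =>
    intro us f hf hus hc m
    have hle : ((k + j : ℕ) : WithTop ℕ∞) ≤ ((k + 1 + j : ℕ) : WithTop ℕ∞) := by
      exact_mod_cast (show k + j ≤ k + 1 + j by omega)
    have hlej : ((j : ℕ) : WithTop ℕ∞) ≤ ((k + 1 + j : ℕ) : WithTop ℕ∞) := by
      exact_mod_cast (show j ≤ k + 1 + j by omega)
    have hq : ∀ l m', ContDiff ℝ j (fun e => coeff m' (interp k (fun i => us (i + 1)) c
        (Hq f (us 0) l) e)) := by
      intro l m'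
      apply ih
      · apply Hq_contDiff _ ((hus 0).of_le hle)
        rw [show k + j + 1 = k + 1 + j by omega]
        exact hf
      · exact fun i => (hus (i + 1)).of_le hle
      · exact hc.of_le hle
    simp only [interp, coeff_add, coeff_sum, sub_mul, coeff_sub, coeff_C_mul, coeff_C]
    apply ContDiff.add
    · split_ifs
      · exact (hf.comp (contDiff_id.prodMk (hus 0))).of_le hlej
      · exact contDiff_const
    · apply ContDiff.sum
      intro l _
      apply ContDiff.sub
      · simp only [mul_comm (X l), coeff_mul_X']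
        split_ifs
        · exact hq l _
        · exact contDiff_const
      · apply ContDiff.mul _ (hq l m)
        have h3 : ContDiff ℝ (k + 1 + j : ℕ) (fun e => us 0 e - c e) := (hus 0).sub hc
        exact ((EuclideanSpace.proj (𝕜 := ℝ) l).contDiff.comp h3).of_le hlej

/-- The degree of the interpolation polynomial. -/
theorem interp_coeff (c : E → Vec d) (e : E) : ∀ (k : ℕ) (us : ℕ → E → Vec d) (f : E × Vec d → ℝ)
    (m : Fin d →₀ ℕ), k ≤ m.degree → coeff m (interp k us c f e) = 0 := by
  classical
  intro k
  induction k with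
  | zero => intro us f m _; rw [interp, coeff_zero]
  | succ k ih =>
    intro us f m hm
    rw [interp, coeff_add, coeff_sum, coeff_C, if_neg, zero_add]
    · apply Finset.sum_eq_zero
      intro l _
      rw [sub_mul, coeff_sub, coeff_C_mul, ih _ _ _ (by omega), mul_zero, sub_zero, mul_comm,
        coeff_mul_X']
      split_ifs with h
      · apply ih
        have h1 : (m - Finsupp.single l 1).degree + 1 = m.degree := by
          have h2 : m - Finsupp.single l 1 + Finsupp.single l 1 = m := by
            apply tsub_add_cancel_of_le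
            rw [Finsupp.single_le_iff]
            exact Nat.one_le_iff_ne_zero.2 (Finsupp.mem_support_iff.1 h)
          conv_rhs => rw [← h2]
          rw [map_add, Finsupp.degree_single]
        omega
      · rfl
    · rintro rfl
      simp at hm

/-- At confluent points the interpolation polynomial approximates the function. -/
theorem interp_isBigO [FiniteDimensional ℝ E] {c : E → Vec d} (e : E) :
    ∀ (k : ℕ) (us : ℕ → E → Vec d) (f : E × Vec d → ℝ),
    ContDiff ℝ k f → (∀ i, ContDiff ℝ k (us i)) → (∀ i, us i e = c e) →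
      (fun z : Vec d => f (e, c e + z) - ev z (interp k us c f e)) =O[𝓝 0] fun z => ‖z‖ ^ k := by
  intro k
  induction k with
  | zero =>
    intro us f hf _ _
    simp only [interp, map_zero, sub_zero, pow_zero]
    have h1 : Continuous fun z : Vec d => f (e, c e + z) := hf.continuous.comp (by fun_prop)
    exact (h1.tendsto 0).isBigO_one ℝ
  | succ k ih =>
    intro us f hf hus hcf
    have h1 : ContDiff ℝ 1 f := hf.of_le (by exact_mod_cast (show 1 ≤ k + 1 by omega))
    have hle : ((k : ℕ) : WithTop ℕ∞) ≤ ((k + 1 : ℕ) : WithTop ℕ∞) := by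
      exact_mod_cast Nat.le_succ k
    have h2 : (fun z : Vec d => f (e, c e + z) - ev z (interp (k + 1) us c f e)) =
        fun z => ∑ l, z l * (Hq f (us 0) l (e, c e + z) -
          ev z (interp k (fun i => us (i + 1)) c (Hq f (us 0) l) e)) := by
      funext z
      rw [hadamard h1 (us 0) e (c e + z), interp, map_add, map_sum, ev_C]
      simp only [map_mul, map_sub, ev_C, ev_X, hcf, add_sub_cancel_left, sub_self]
      simp only [PiLp.zero_apply, sub_zero, mul_sub, Finset.sum_sub_distrib]
      ring
    rw [h2]
    apply IsBigO.fun_sum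
    intro l _
    simp only [pow_succ']
    apply IsBigO.mul
    · have : (fun z : Vec d => (EuclideanSpace.proj l : Vec d →L[ℝ] ℝ) z) =O[𝓝 0] fun z => z :=
        ContinuousLinearMap.isBigO_id _ _
      exact this.norm_right
    · exact ih _ _ (Hq_contDiff hf ((hus 0).of_le hle) l) (fun i => (hus (i + 1)).of_le hle)
        (fun i => hcf (i + 1))

end Pool.Agent.L0h24.PF
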