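import Pool.Agent.L0h24.PF.Had
import Pool.Agent.L0h24.GF.Dir

set_option autoImplicit false

/-! Truncated polynomials. -/

open MeasureTheory Set Topology Asymptotics Filter

namespace Pool.Agent.L0h24.PF

open Pool.Agent.H810R3.Tub (Vec)
open MvPolynomial

variable {d : ℕ}

theorem ev_apply (z : Vec d) (P : MvPolynomial (Fin d) ℝ) :
    ev z P = ∑ m ∈ P.support, coeff m P * ∏ i, z i ^ m i := by
  unfold ev
  rw [eval_eq']

theorem ev_monomial (z : Vec d) (m : Fin d →₀ ℕ) (a : ℝ) :
    ev z (monomial m a) = a * ∏ i, z i ^ m i := by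
  unfold ev
  rw [eval_monomial, Finsupp.prod_fintype _ _ (fun i => pow_zero _)]

theorem ev_smul_homogeneous {n : ℕ} {P : MvPolynomial (Fin d) ℝ} (hP : P.IsHomogeneous n) (s : ℝ)
    (z : Vec d) : ev (s • z) P = s ^ n * ev z P := by
  rw [ev_apply, ev_apply, Finset.mul_sum]
  refine Finset.sum_congr rfl fun m hm => ?_
  have h1 : m.degree = n := by
    have := hP (mem_support_iff.1 hm)
    rw [← this, Finsupp.degree_eq_weight_one]
    rfl
  have h2 : ∏ i, (s • z) i ^ m i = s ^ n * ∏ i, z i ^ m i := by
    rw [← h1, Finsupp.degree_eq_sum, ← Finset.prod_pow_eq_pow_sum, ← Finset.prod_mul_distrib]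
    refine Finset.prod_congr rfl fun i _ => ?_
    rw [← mul_pow]
    rfl
  rw [h2]
  ring

/-- A polynomial which is `O(‖z‖ ^ k)` has no monomials of degree less than `k`. -/
theorem poly_O {k : ℕ} {P : MvPolynomial (Fin d) ℝ}
    (h : (fun z : Vec d => ev z P) =O[𝓝 0] fun z => ‖z‖ ^ k) : P ∈ (idealOfVars (Fin d) ℝ) ^ k := by
  rw [mem_pow_idealOfVars_iff']
  have key : ∀ z : Vec d, ∀ j : Fin k, ev z (homogeneousComponent (j : ℕ) P) = 0 := by
    intro z
    apply Pool.Agent.L0h24.GF.poly_o
    have hsum : ∀ s : ℝ, ev (s • z) P =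
        ∑ j ∈ Finset.range (P.totalDegree + 1), s ^ j * ev z (homogeneousComponent j P) := by
      intro s
      conv_lhs => rw [← sum_homogeneousComponent P]
      rw [map_sum]
      refine Finset.sum_congr rfl fun j _ => ?_
      exact ev_smul_homogeneous (homogeneousComponent_isHomogeneous j P) s z
    have hO : (fun s : ℝ => ev (s • z) P) =O[𝓝 0] fun s => s ^ k := by
      have ht : Tendsto (fun s : ℝ => s • z) (𝓝 0) (𝓝 0) := by
        have : Continuous fun s : ℝ => s • z := by fun_prop
        have h0 := this.tendsto 0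
        rwa [zero_smul] at h0
      refine (h.comp_tendsto ht).trans ?_
      apply IsBigO.of_bound (‖z‖ ^ k)
      filter_upwards with s
      simp only [Function.comp, norm_smul, mul_pow]
      rw [norm_mul, norm_pow, norm_pow, norm_norm, norm_norm, norm_pow, mul_comm]
    have hexp : ∀ s : ℝ, ∑ j : Fin k, s ^ ((j : ℕ) + 1) • ev z (homogeneousComponent (j : ℕ) P) =
        s * ev (s • z) P - ∑ j ∈ Finset.range (P.totalDegree + 1), if j < k then 0 else
          s ^ (j + 1) * ev z (homogeneousComponent j P) := by
      intro s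
      have h1 : ∑ j : Fin k, s ^ ((j : ℕ) + 1) • ev z (homogeneousComponent (j : ℕ) P) =
          ∑ j ∈ Finset.range k, s ^ (j + 1) * ev z (homogeneousComponent j P) := by
        rw [Finset.sum_range]
        rfl
      rw [h1, hsum, Finset.mul_sum, ← Finset.sum_sub_distrib]
      have h2 : ∀ j ∈ Finset.range (P.totalDegree + 1), (s * (s ^ j * ev z (homogeneousComponent j P)) -
          if j < k then 0 else s ^ (j + 1) * ev z (homogeneousComponent j P)) =
          if j < k then s ^ (j + 1) * ev z (homogeneousComponent j P) else 0 := by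
        intro j _
        split_ifs <;> ring
      rw [Finset.sum_congr rfl h2, ← Finset.sum_filter]
      symm
      apply Finset.sum_subset_zero_on_sdiff
      · intro j hj
        rw [Finset.mem_filter] at hj
        exact Finset.mem_range.2 hj.2
      · intro j hj
        rw [Finset.mem_sdiff, Finset.mem_filter, Finset.mem_range, Finset.mem_range] at hj
        have h3 : P.totalDegree < j := by
          by_contra hcon
          exact hj.2 ⟨by omega, hj.1⟩
        rw [homogeneousComponent_eq_zero _ _ h3, map_zero, mul_zero]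
      · intro j _
        rfl
    simp only [hexp]
    apply IsLittleO.sub
    · have h1 : (fun s : ℝ => s * ev (s • z) P) =O[𝓝 0] fun s => s * s ^ k :=
        (isBigO_refl _ _).mul hO
      refine h1.trans_isLittleO ?_
      have h2 : (fun s : ℝ => s) =o[𝓝 0] fun _ => (1 : ℝ) := by
        rw [isLittleO_one_iff]
        exact tendsto_id
      simpa using h2.mul_isBigO (isBigO_refl (fun s : ℝ => s ^ k) (𝓝 0))
    · apply IsLittleO.fun_sum
      intro j _
      split_ifs with hj
      · exact isLittleO_zero _ _
      · have h2 : (fun s : ℝ => s ^ (j + 1 - k)) =o[𝓝 0] fun _ => (1 : ℝ) := by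
          rw [isLittleO_one_iff]
          have hc : Continuous fun s : ℝ => s ^ (j + 1 - k) := by fun_prop
          have := hc.tendsto 0
          rwa [zero_pow (by omega)] at this
        have h3 : (fun s : ℝ => s ^ (j + 1) * ev z (homogeneousComponent j P)) =
            fun s : ℝ => (s ^ (j + 1 - k) * ev z (homogeneousComponent j P)) * s ^ k := by
          funext s
          have : s ^ (j + 1) = s ^ (j + 1 - k) * s ^ k := by
            rw [← pow_add]
            congr 1
            omega
          rw [this]
          ring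
        rw [h3]
        have h4 : (fun s : ℝ => s ^ (j + 1 - k) * ev z (homogeneousComponent j P)) =o[𝓝 0]
            fun _ => (1 : ℝ) := by
          have := h2.mul_isBigO (isBigO_const_const (ev z (homogeneousComponent j P)) (one_ne_zero (α := ℝ)) (𝓝 (0 : ℝ)))
          simpa using this
        simpa using h4.mul_isBigO (isBigO_refl (fun s : ℝ => s ^ k) (𝓝 0))
  intro m hm
  have h1 : homogeneousComponent m.degree P = 0 := by
    apply MvPolynomial.funext
    intro x
    have := key (WithLp.toLp 2 x) ⟨m.degree, hm⟩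
    rw [map_zero]
    exact this
  have h2 : coeff m (homogeneousComponent m.degree P) = coeff m P := by
    rw [coeff_homogeneousComponent, if_pos rfl]
  rw [← h2, h1, coeff_zero]

theorem finite_lt (d k : ℕ) : {m : Fin d →₀ ℕ | m.degree < k}.Finite := by
  apply Set.Finite.subset (Set.finite_Iic (Finsupp.equivFunOnFinite.symm (fun _ : Fin d => k)))
  intro m hm i
  have h1 : m i ≤ m.degree := Finsupp.le_degree i m
  have : m.degree < k := hm
  show m i ≤ k
  omega

/-- The exponents of degree less than `k`. -/
noncomputable def mons (d k : ℕ) : Finset (Fin d →₀ ℕ) := (finite_lt d k).toFinset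

theorem mem_mons {k : ℕ} {m : Fin d →₀ ℕ} : m ∈ mons d k ↔ m.degree < k := by
  unfold mons
  rw [Set.Finite.mem_toFinset]
  rfl

/-- The coefficients of degree less than `k`. -/
noncomputable def kap (d k : ℕ) : MvPolynomial (Fin d) ℝ →ₗ[ℝ] (mons d k → ℝ) where
  toFun P m := coeff (m : Fin d →₀ ℕ) P
  map_add' P Q := by funext m; exact coeff_add _ _ _
  map_smul' a P := by funext m; exact coeff_smul _ _ _

/-- The polynomial with given coefficients. -/
noncomputable def lift (d k : ℕ) : (mons d k → ℝ) →ₗ[ℝ] MvPolynomial (Fin d) ℝ :=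
  ∑ m : mons d k, (monomial (m : Fin d →₀ ℕ) : ℝ →ₗ[ℝ] MvPolynomial (Fin d) ℝ).comp
    (LinearMap.proj m)

theorem lift_apply (k : ℕ) (q : mons d k → ℝ) :
    lift d k q = ∑ m : mons d k, monomial (m : Fin d →₀ ℕ) (q m) := by
  unfold lift
  rw [LinearMap.sum_apply]
  rfl

theorem kap_eq_zero {k : ℕ} {P : MvPolynomial (Fin d) ℝ} :
    kap d k P = 0 ↔ P ∈ (idealOfVars (Fin d) ℝ) ^ k := by
  rw [mem_pow_idealOfVars_iff']
  constructor
  · intro h m hm
    exact congrFun h ⟨m, mem_mons.2 hm⟩
  · intro h
    funext m
    exact h m (mem_mons.1 m.2)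

theorem coeff_lift (k : ℕ) (q : mons d k → ℝ) (m : Fin d →₀ ℕ) :
    coeff m (lift d k q) = if h : m ∈ mons d k then q ⟨m, h⟩ else 0 := by
  classical
  rw [lift_apply, coeff_sum]
  simp only [coeff_monomial]
  split_ifs with h
  · rw [Finset.sum_eq_single ⟨m, h⟩]
    · simp
    · intro m' _ hm'
      rw [if_neg]
      intro h1
      exact hm' (Subtype.ext h1)
    · intro hh
      exact absurd (Finset.mem_univ _) hh
  · apply Finset.sum_eq_zero
    intro m' _
    rw [if_neg]
    rintro rfl
    exact h m'.2

theorem kap_lift (k : ℕ) (q : mons d k → ℝ) : kap d k (lift d k q) = q := by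
  funext m
  show coeff (m : Fin d →₀ ℕ) (lift d k q) = q m
  rw [coeff_lift, dif_pos m.2]

theorem lift_kap {k : ℕ} {P : MvPolynomial (Fin d) ℝ} (h : ∀ m : Fin d →₀ ℕ, k ≤ m.degree → coeff m P = 0) :
    lift d k (kap d k P) = P := by
  ext m
  rw [coeff_lift]
  split_ifs with h1
  · rfl
  · rw [h]
    rw [mem_mons] at h1
    omega

end Pool.Agent.L0h24.PF
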