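import Mathlib

set_option autoImplicit false

/-! Integrals depending smoothly on a parameter. -/

open MeasureTheory Set Topology Asymptotics Filter

namespace Pool.Agent.L0h24.PF

/-- Integrals of functions of class `C^n` are of class `C^n`. -/
theorem contDiff_integral {X : Type} [NormedAddCommGroup X] [NormedSpace ℝ X] [FiniteDimensional ℝ X] :
    ∀ (n : ℕ) (F : Type) [NormedAddCommGroup F] [NormedSpace ℝ F] [CompleteSpace F] (Φ : X × ℝ → F),
      ContDiff ℝ n Φ →
      ContDiff ℝ n (fun x => ∫ s in (0 : ℝ)..1, Φ (x, s)) := by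
  intro n
  induction n with
  | zero =>
    intro F _ _ _ Φ h
    have hc : Continuous Φ := h.continuous
    have h1 : Continuous (fun x => ∫ s in (0 : ℝ)..1, Φ (x, s)) :=
      intervalIntegral.continuous_parametric_intervalIntegral_of_continuous' (f := fun x s => Φ (x, s))
        hc 0 1
    exact contDiff_zero.2 h1
  | succ n ih =>
    intro F _ _ _ Φ h
    have : ProperSpace X := FiniteDimensional.proper ℝ X
    set Φ' : X × ℝ → X →L[ℝ] F := fun y => (fderiv ℝ Φ y).comp (ContinuousLinearMap.inl ℝ X ℝ) with hΦ'
    have hfd : ContDiff ℝ n (fderiv ℝ Φ) := h.fderiv_right (by norm_cast)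
    have hΦ'c : ContDiff ℝ n Φ' := hfd.clm_comp contDiff_const
    have hd : Differentiable ℝ Φ := h.differentiable (by exact_mod_cast Nat.succ_ne_zero n)
    have hc : Continuous Φ := h.continuous
    have hc' : Continuous Φ' := hΦ'c.continuous
    have hderiv : ∀ x : X, ∀ s : ℝ, HasFDerivAt (fun x => Φ (x, s)) (Φ' (x, s)) x := by
      intro x s
      have h1 : HasFDerivAt (fun x : X => (x, s)) (ContinuousLinearMap.inl ℝ X ℝ) x :=
        hasFDerivAt_prodMk_left x s
      exact (hd (x, s)).hasFDerivAt.comp x h1
    have hmain : ∀ x₀ : X, HasFDerivAt (fun x => ∫ s in (0 : ℝ)..1, Φ (x, s))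
        (∫ s in (0 : ℝ)..1, Φ' (x₀, s)) x₀ := by
      intro x₀
      obtain ⟨C, hC⟩ := ((isCompact_closedBall x₀ 1).prod (isCompact_Icc (a := (0 : ℝ)) (b := 1))).exists_bound_of_continuousOn
        hc'.continuousOn
      apply intervalIntegral.hasFDerivAt_integral_of_dominated_of_fderiv_le
        (F' := fun x s => Φ' (x, s)) (bound := fun _ => C) (Metric.ball_mem_nhds x₀ one_pos)
      · filter_upwards with x
        exact (hc.comp (Continuous.prodMk_right x)).aestronglyMeasurable
      · exact (hc.comp (Continuous.prodMk_right x₀)).intervalIntegrable _ _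
      · exact (hc'.comp (Continuous.prodMk_right x₀)).aestronglyMeasurable
      · filter_upwards with s hs x hx
        apply hC
        refine ⟨Metric.ball_subset_closedBall hx, ?_⟩
        rw [uIoc_of_le zero_le_one] at hs
        exact ⟨hs.1.le, hs.2⟩
      · exact intervalIntegrable_const
      · filter_upwards with s hs x hx
        exact hderiv x s
    rw [show ((n + 1 : ℕ) : WithTop ℕ∞) = (n : WithTop ℕ∞) + 1 by norm_cast,
      contDiff_succ_iff_hasFDerivAt]
    exact ⟨_, ih _ Φ' hΦ'c, hmain⟩

end Pool.Agent.L0h24.PF
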