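import Pool.Agent.L0h24.PF.Alg
import Pool.Agent.L0h24.PF.Lin

set_option autoImplicit false

/-! The set of the parameters with a large multiplicity, for families of matrices. -/

open Set Topology Asymptotics Filter MeasureTheory
open Polynomial
open scoped ENNReal NNReal

namespace Pool.Agent.L0h24.PF

variable {E : Type} [NormedAddCommGroup E] [NormedSpace ℝ E]

/-- The functions with values in the polynomials, the coefficients of which are of class `C^1`. -/
def CD (e₀ : E) : Subring (E → ℝ[X]) where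
  carrier := {f | ∀ l, ContDiffAt ℝ 1 (fun e => (f e).coeff l) e₀}
  mul_mem' := by
    intro f g hf hg l
    simp only [Pi.mul_apply, coeff_mul]
    apply ContDiffAt.sum
    intro x _
    exact (hf x.1).mul (hg x.2)
  one_mem' := by
    intro l
    exact contDiffAt_const (c := (1 : ℝ[X]).coeff l)
  add_mem' := by
    intro f g hf hg l
    have h1 : (fun e => ((f + g) e).coeff l) = fun e => (f e).coeff l + (g e).coeff l := by
      funext e
      rw [Pi.add_apply, coeff_add]
    rw [h1]
    exact (hf l).add (hg l)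
  zero_mem' := by
    intro l
    exact contDiffAt_const (c := (0 : ℝ[X]).coeff l)
  neg_mem' := by
    intro f hf l
    have h1 : (fun e => ((-f) e).coeff l) = fun e => -(f e).coeff l := by
      funext e
      rw [Pi.neg_apply, coeff_neg]
    rw [h1]
    exact (hf l).neg

/-- The iterated derivatives of the characteristic polynomial. -/
noncomputable def DD {ι : Type} [Fintype ι] [DecidableEq ι] (M : E → Matrix ι ι ℝ[X]) (s : E → ℝ[X])
    (i : ℕ) (e : E) : ℝ[X] := (derivative^[i] ((-(M e)).charpoly)).eval (s e)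

theorem DD_mem {ι : Type} [Fintype ι] [DecidableEq ι] {M : E → Matrix ι ι ℝ[X]} {s : E → ℝ[X]} {e₀ : E}
    (hM : ∀ i j, (fun e => M e i j) ∈ CD e₀) (hs : s ∈ CD e₀) (i : ℕ) : DD M s i ∈ CD e₀ := by
  set M' : Matrix ι ι (CD e₀) := fun i j => ⟨fun e => M e i j, hM i j⟩ with hM'
  set s' : CD e₀ := ⟨s, hs⟩ with hs'
  set y : CD e₀ := (derivative^[i] ((-M').charpoly)).eval s' with hy
  have h1 : DD M s i = (y : E → ℝ[X]) := by
    funext e
    set φ : CD e₀ →+* ℝ[X] := (Pi.evalRingHom (fun _ : E => ℝ[X]) e).comp (CD e₀).subtype with hφ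
    have h2 : (y : E → ℝ[X]) e = φ y := rfl
    rw [h2, hy, ← eval_map_apply, ← iterate_derivative_map, ← Matrix.charpoly_map]
    have h3 : (-M').map φ = -(M e) := by
      ext1 a b
      rfl
    have h4 : φ s' = s e := rfl
    rw [h3, h4]
    rfl
  rw [h1]
  exact y.2

theorem surj_of_triangular {c : ℕ} (A : E →L[ℝ] (Fin c → ℝ)) (w : Fin c → E)
    (h0 : ∀ j j', j < j' → A (w j') j = 0) (h1 : ∀ j, A (w j) j ≠ 0) : Function.Surjective A := by
  set J : Matrix (Fin c) (Fin c) ℝ := fun j j' => A (w j') j with hJ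
  have hdet : J.det = ∏ i, J i i := by
    apply Matrix.det_of_isLowerTriangular
    intro i j hij
    exact h0 i j hij
  have hdet0 : IsUnit J.det := by
    rw [hdet, isUnit_iff_ne_zero]
    exact Finset.prod_ne_zero_iff.2 fun i _ => h1 i
  intro y
  refine ⟨∑ j', (J⁻¹.mulVec y) j' • w j', ?_⟩
  have h2 : A (∑ j', (J⁻¹.mulVec y) j' • w j') = J.mulVec (J⁻¹.mulVec y) := by
    funext j
    rw [map_sum, Finset.sum_apply]
    show _ = ∑ j', J j j' * (J⁻¹.mulVec y) j'
    refine Finset.sum_congr rfl fun j' _ => ?_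
    rw [map_smul, Pi.smul_apply, smul_eq_mul, mul_comm]
  rw [h2, Matrix.mulVec_mulVec, Matrix.mul_nonsing_inv _ hdet0, Matrix.one_mulVec]

/-- The dimension of the set of the parameters where the determinant vanishes to a high order. -/
theorem dim_bad [FiniteDimensional ℝ E] {ι : Type} [Fintype ι] [DecidableEq ι] {c : ℕ} {U : Set E}
    {M : E → Matrix ι ι ℝ[X]} {s : E → ℝ[X]}
    (hM : ∀ e ∈ U, ∀ i j, (fun e => M e i j) ∈ CD e) (hs : ∀ e ∈ U, s ∈ CD e)
    (w : E → Fin c → E) (hwM : ∀ e j, ∀ θ : ℝ, M (e + θ • w e j) = M e)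
    (hws : ∀ e j, ∀ θ : ℝ, s (e + θ • w e j) = s e + C θ * X ^ ((j : ℕ) + 1)) :
    dimH {e ∈ U | ∀ l ≤ Fintype.card ι * c, ((-(M e)).charpoly.eval (s e)).coeff l = 0} ≤
      ((Module.finrank ℝ E - c : ℕ) : ℝ≥0∞) := by
  set n := Fintype.card ι with hn
  set Z : ℕ × ℕ → Set E := fun a => {e ∈ U | (∀ l < a.2, (DD M s (a.1 + 1) e).coeff l = 0) ∧
    (DD M s (a.1 + 1) e).coeff a.2 ≠ 0 ∧ ∀ l ≤ a.2 + c, (DD M s a.1 e).coeff l = 0} with hZ
  have hsub : {e ∈ U | ∀ l ≤ n * c, ((-(M e)).charpoly.eval (s e)).coeff l = 0} ⊆ ⋃ a, Z a := by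
    rintro e ⟨he, h⟩
    have hPn : (-(M e)).charpoly.natDegree = n := Matrix.charpoly_natDegree_eq_dim _
    obtain ⟨i, _, o, _, h1, h2, h3⟩ := exists_type n c (fun i => DD M s i e) (by
      show ((derivative^[n] ((-(M e)).charpoly)).eval (s e)).coeff 0 ≠ 0
      rw [← hPn, iterate_derivative_monic (Matrix.charpoly_monic _), eval_C]
      rw [← Polynomial.C_eq_natCast, coeff_C_zero]
      exact_mod_cast Nat.factorial_ne_zero _) h
    exact mem_iUnion.2 ⟨(i, o), he, h1, h2, h3⟩
  refine (dimH_mono hsub).trans ?_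
  rw [dimH_iUnion]
  refine iSup_le fun a => ?_
  obtain ⟨i, o⟩ := a
  apply dimH_submersion
  rintro e ⟨heU, h1, h2, h3⟩
  simp only at h1 h2 h3
  refine ⟨fun x j => (DD M s i x).coeff (o + (j : ℕ) + 1), ?_, ?_, ?_⟩
  · rw [contDiffAt_pi]
    intro j
    exact DD_mem (hM e heU) (hs e heU) i _
  · set Ψ : E → (Fin c → ℝ) := fun x j => (DD M s i x).coeff (o + (j : ℕ) + 1) with hΨ
    have hc : ContDiffAt ℝ 1 Ψ e := by
      rw [contDiffAt_pi]
      intro j
      exact DD_mem (hM e heU) (hs e heU) i _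
    have hd : HasFDerivAt Ψ (fderiv ℝ Ψ e) e := (hc.differentiableAt one_ne_zero).hasFDerivAt
    have key : ∀ j j' : Fin c, fderiv ℝ Ψ e (w e j') j =
        (DD M s (i + 1) e * X ^ ((j' : ℕ) + 1)).coeff (o + (j : ℕ) + 1) := by
      intro j j'
      have hl : HasDerivAt (fun θ : ℝ => e + θ • w e j') (w e j') 0 := by
        have := ((hasDerivAt_id (0 : ℝ)).smul_const (w e j')).const_add e
        simpa using this
      have hl0 : e + (0 : ℝ) • w e j' = e := by simp
      have h4 : HasDerivAt (fun θ : ℝ => Ψ (e + θ • w e j')) (fderiv ℝ Ψ e (w e j')) 0 := by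
        have hd' : HasFDerivAt Ψ (fderiv ℝ Ψ e) (e + (0 : ℝ) • w e j') := by rw [hl0]; exact hd
        exact hd'.comp_hasDerivAt (0 : ℝ) hl
      have h5 := (hasDerivAt_pi.1 h4) j
      have h6 : ∀ θ : ℝ, Ψ (e + θ • w e j') j =
          ((derivative^[i] ((-(M e)).charpoly)).eval (s e + C θ * X ^ ((j' : ℕ) + 1))).coeff
            (o + (j : ℕ) + 1) := by
        intro θ
        show ((derivative^[i] ((-(M (e + θ • w e j'))).charpoly)).eval (s (e + θ • w e j'))).coeff _ = _
        rw [hwM, hws]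
      simp only [h6] at h5
      have h7 := (CDer.line (s e) (X ^ ((j' : ℕ) + 1))).eval (derivative^[i] ((-(M e)).charpoly))
        (o + (j : ℕ) + 1)
      have h8 := h5.unique h7
      rw [h8]
      have e1 : s e + C (0 : ℝ) * X ^ ((j' : ℕ) + 1) = s e := by simp
      rw [e1, ← Function.iterate_succ_apply' derivative i]
      rfl
    apply surj_of_triangular _ (w e)
    · intro j j' hjj
      have hjj' : (j : ℕ) < (j' : ℕ) := hjj
      rw [key, coeff_mul_X_pow']
      split_ifs with h4
      · apply h1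
        omega
      · rfl
    · intro j
      rw [key, coeff_mul_X_pow', if_pos (by omega)]
      have : o + (j : ℕ) + 1 - ((j : ℕ) + 1) = o := by omega
      rw [this]
      exact h2
  · filter_upwards [self_mem_nhdsWithin] with x hx
    obtain ⟨_, _, _, h4⟩ := hx
    funext j
    have := j.2
    exact h4 (o + (j : ℕ) + 1) (by simp only; omega)

end Pool.Agent.L0h24.PF
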