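import Pool.Agent.L0h24.PF.Span
import Pool.Agent.L0h24.PF.Smooth

set_option autoImplicit false

/-! Almost every diagonal polynomial perturbation has finite multiplicity everywhere. -/

open MeasureTheory Set Topology Asymptotics Filter
open scoped ENNReal NNReal

namespace Pool.Agent.L0h24.PF

open Pool.Agent.H810R3.Tub (Vec)
open MvPolynomial

variable {d c : ℕ}

/-- The parameters of the perturbation. -/
abbrev Par (d c : ℕ) : Type := Fin d → Fin c → ℝ

/-- The slopes, heights and parameters. -/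
abbrev EE (d c : ℕ) : Type := Vec d × ℝ × Par d c

/-- The Taylor polynomial of the `r`-th component of `b` at `v`. -/
noncomputable def beta (k : ℕ) (b : Vec d → Vec d) (r : Fin d) (v : Vec d) : MvPolynomial (Fin d) ℝ :=
  interp k (fun _ v => v) (fun v => v) (fun y : Vec d × Vec d => b y.2 r) v

theorem beta_contDiff {k : ℕ} {b : Vec d → Vec d} (hb : ContDiff ℝ (k + 1 : ℕ) b) (r : Fin d)
    (m : Fin d →₀ ℕ) : ContDiff ℝ 1 (fun v => coeff m (beta k b r v)) := by
  have h1 : ContDiff ℝ (k + 1 : ℕ) (fun y : Vec d × Vec d => b y.2 r) :=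
    (EuclideanSpace.proj (𝕜 := ℝ) r).contDiff.comp (hb.comp contDiff_snd)
  have h2 := interp_contDiff (E := Vec d) (c := fun v => v) 1 k (fun _ v => v) _ h1
    (fun _ => contDiff_id) contDiff_id m
  exact_mod_cast h2

theorem beta_isBigO {k : ℕ} {b : Vec d → Vec d} (hb : ContDiff ℝ k b) (r : Fin d) (v : Vec d) :
    (fun z : Vec d => b (v + z) r - ev z (beta k b r v)) =O[𝓝 0] fun z => ‖z‖ ^ k := by
  have h1 : ContDiff ℝ k (fun y : Vec d × Vec d => b y.2 r) :=
    (EuclideanSpace.proj (𝕜 := ℝ) r).contDiff.comp (hb.comp contDiff_snd)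
  exact interp_isBigO (E := Vec d) (c := fun v => v) v k (fun _ v => v) _ h1
    (fun _ => contDiff_id) (fun _ => rfl)

/-- The perturbation of the `r`-th component, as a polynomial in the `r`-th coordinate centred at
`v r`. -/
noncomputable def ss (r : Fin d) (e : EE d c) : Polynomial ℝ :=
  ∑ j : Fin c, Polynomial.C (e.2.2 r j) *
    ((Polynomial.C (e.1 r) + Polynomial.X) ^ ((j : ℕ) + 1) - Polynomial.C (e.1 r) ^ ((j : ℕ) + 1))

/-- The jet of the unperturbed section map. -/
noncomputable def GG (k : ℕ) (b : Vec d → Vec d) (r : Fin d) (e : EE d c) : MvPolynomial (Fin d) ℝ :=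
  beta k b r e.1 - C (b e.1 r) + C e.2.1 * X r

/-- The jet of the perturbed section map. -/
noncomputable def FF (k : ℕ) (b : Vec d → Vec d) (r : Fin d) (e : EE d c) : MvPolynomial (Fin d) ℝ :=
  GG k b r e + Polynomial.aeval (X r) (ss r e)

/-- The functions with values in the polynomials with coefficients of class `C^1`. -/
def MD (E : Type) [NormedAddCommGroup E] [NormedSpace ℝ E] (d : ℕ) :
    Subring (E → MvPolynomial (Fin d) ℝ) where
  carrier := {f | ∀ m, ContDiff ℝ 1 (fun e => coeff m (f e))}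
  mul_mem' := by
    classical
    intro f g hf hg m
    simp only [Pi.mul_apply, coeff_mul]
    apply ContDiff.sum
    intro x _
    exact (hf x.1).mul (hg x.2)
  one_mem' := fun m => contDiff_const (c := coeff m (1 : MvPolynomial (Fin d) ℝ))
  add_mem' := by
    intro f g hf hg m
    simp only [Pi.add_apply, coeff_add]
    exact (hf m).add (hg m)
  zero_mem' := fun m => contDiff_const (c := coeff m (0 : MvPolynomial (Fin d) ℝ))
  neg_mem' := by
    intro f hf m
    simp only [Pi.neg_apply, coeff_neg]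
    exact (hf m).neg

theorem MD_const {E : Type} [NormedAddCommGroup E] [NormedSpace ℝ E] (p : MvPolynomial (Fin d) ℝ) :
    (fun _ : E => p) ∈ MD E d := fun _ => contDiff_const

theorem MD_C {E : Type} [NormedAddCommGroup E] [NormedSpace ℝ E] {f : E → ℝ} (hf : ContDiff ℝ 1 f) :
    (fun e : E => (C (f e) : MvPolynomial (Fin d) ℝ)) ∈ MD E d := by
  classical
  intro m
  simp only [coeff_C]
  split_ifs
  · exact hf
  · exact contDiff_const

theorem ev_coord {E : Type} [NormedAddCommGroup E] [NormedSpace ℝ E] {n : WithTop ℕ∞}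
    {f : E → Vec d} (hf : ContDiff ℝ n f) (r : Fin d) : ContDiff ℝ n (fun e => f e r) :=
  (EuclideanSpace.proj (𝕜 := ℝ) r).contDiff.comp hf

theorem GG_mem {k : ℕ} {b : Vec d → Vec d} (hb : ContDiff ℝ (k + 1 : ℕ) b) (r : Fin d) :
    (fun e : EE d c => GG k b r e) ∈ MD (EE d c) d := by
  have hb1 : ContDiff ℝ 1 b := hb.of_le (by exact_mod_cast (show 1 ≤ k + 1 by omega))
  have h1 : (fun e : EE d c => beta k b r e.1) ∈ MD (EE d c) d := fun m =>
    (beta_contDiff hb r m).comp contDiff_fst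
  have h2 : (fun e : EE d c => (C (b e.1 r) : MvPolynomial (Fin d) ℝ)) ∈ MD (EE d c) d :=
    MD_C (ev_coord (hb1.comp contDiff_fst) r)
  have h3 : (fun e : EE d c => (C e.2.1 : MvPolynomial (Fin d) ℝ)) ∈ MD (EE d c) d :=
    MD_C (contDiff_fst.comp contDiff_snd)
  exact (MD _ d).add_mem ((MD _ d).sub_mem h1 h2) ((MD _ d).mul_mem h3 (MD_const (X r)))

theorem param_contDiff (r : Fin d) (j : Fin c) : ContDiff ℝ 1 (fun e : EE d c => e.2.2 r j) := by
  have h1 : ContDiff ℝ 1 (fun e : EE d c => e.2.2) := contDiff_snd.comp contDiff_snd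
  have h2 : ContDiff ℝ 1 (fun e : EE d c => e.2.2 r) := (contDiff_pi.1 h1) r
  exact (contDiff_pi.1 h2) j

theorem FF_mem {k : ℕ} {b : Vec d → Vec d} (hb : ContDiff ℝ (k + 1 : ℕ) b) (r : Fin d) :
    (fun e : EE d c => FF k b r e) ∈ MD (EE d c) d := by
  refine (MD _ d).add_mem (GG_mem hb r) ?_
  have h0 : (fun e : EE d c => Polynomial.aeval (X r : MvPolynomial (Fin d) ℝ) (ss r e)) =
      ∑ j : Fin c, (fun e : EE d c => (C (e.2.2 r j) : MvPolynomial (Fin d) ℝ)) *
        (((fun e : EE d c => (C (e.1 r) : MvPolynomial (Fin d) ℝ)) + fun _ => X r) ^ ((j : ℕ) + 1) -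
          (fun e : EE d c => (C (e.1 r) : MvPolynomial (Fin d) ℝ)) ^ ((j : ℕ) + 1)) := by
    funext e
    unfold ss
    rw [map_sum, Finset.sum_apply]
    refine Finset.sum_congr rfl fun j _ => ?_
    simp only [map_mul, map_sub, map_pow, map_add, Polynomial.aeval_C, Polynomial.aeval_X,
      algebraMap_eq, Pi.mul_apply, Pi.sub_apply, Pi.pow_apply, Pi.add_apply]
  have h1 : (fun e : EE d c => (C (e.1 r) : MvPolynomial (Fin d) ℝ)) ∈ MD (EE d c) d :=
    MD_C (ev_coord contDiff_fst r)
  show (fun e : EE d c => Polynomial.aeval (X r : MvPolynomial (Fin d) ℝ) (ss r e)) ∈ MD (EE d c) d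
  rw [h0]
  apply Subring.sum_mem
  intro j _
  refine (MD _ d).mul_mem (MD_C (param_contDiff r j)) ?_
  exact (MD _ d).sub_mem ((MD _ d).pow_mem ((MD _ d).add_mem h1 (MD_const (X r))) _)
    ((MD _ d).pow_mem h1 _)

theorem ss_mem (r : Fin d) (e₀ : EE d c) : (fun e : EE d c => ss r e) ∈ CD e₀ := by
  have hC : ∀ {f : EE d c → ℝ}, ContDiff ℝ 1 f →
      (fun e : EE d c => Polynomial.C (f e)) ∈ CD e₀ := by
    intro f hf l
    simp only [Polynomial.coeff_C]
    split_ifs
    · exact hf.contDiffAt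
    · exact contDiffAt_const
  have h0 : (fun e : EE d c => ss r e) =
      ∑ j : Fin c, (fun e : EE d c => Polynomial.C (e.2.2 r j)) *
        (((fun e : EE d c => Polynomial.C (e.1 r)) + fun _ => Polynomial.X) ^ ((j : ℕ) + 1) -
          (fun e : EE d c => Polynomial.C (e.1 r)) ^ ((j : ℕ) + 1)) := by
    funext e
    unfold ss
    rw [Finset.sum_apply]
    refine Finset.sum_congr rfl fun j _ => ?_
    simp only [Pi.mul_apply, Pi.sub_apply, Pi.pow_apply, Pi.add_apply]
  have h1 : (fun e : EE d c => Polynomial.C (e.1 r)) ∈ CD e₀ := hC (ev_coord contDiff_fst r)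
  have hX : (fun _ : EE d c => (Polynomial.X : Polynomial ℝ)) ∈ CD e₀ := fun l => contDiffAt_const
  rw [h0]
  apply Subring.sum_mem
  intro j _
  refine (CD e₀).mul_mem (hC (param_contDiff r j)) ?_
  exact (CD e₀).sub_mem ((CD e₀).pow_mem ((CD e₀).add_mem h1 hX) _) ((CD e₀).pow_mem h1 _)

end Pool.Agent.L0h24.PF
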