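import Pool.Agent.L0h24.PF.Jet
import Pool.Agent.L0h24.PF.Alg

set_option autoImplicit false

/-! Spanning families modulo an ideal of truncated polynomials. -/

open MeasureTheory Set Topology Asymptotics Filter

namespace Pool.Agent.L0h24.PF

open Pool.Agent.H810R3.Tub (Vec)
open MvPolynomial

variable {d : ℕ}

/-- The ideal generated by `gen` and by the monomials of degree at least `k`. -/
noncomputable def idl (k : ℕ) (gen : Fin d → MvPolynomial (Fin d) ℝ) : Ideal (MvPolynomial (Fin d) ℝ) :=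
  Ideal.span (Set.range gen) ⊔ (idealOfVars (Fin d) ℝ) ^ k

theorem gen_mem (k : ℕ) (gen : Fin d → MvPolynomial (Fin d) ℝ) (i : Fin d) : gen i ∈ idl k gen :=
  Ideal.mem_sup_left (Ideal.subset_span ⟨i, rfl⟩)

theorem idl_le {k : ℕ} {gen : Fin d → MvPolynomial (Fin d) ℝ} {J : Ideal (MvPolynomial (Fin d) ℝ)}
    (h1 : ∀ i, gen i ∈ J) (h2 : (idealOfVars (Fin d) ℝ) ^ k ≤ J) : idl k gen ≤ J := by
  apply sup_le _ h2
  rw [Ideal.span_le]
  rintro _ ⟨i, rfl⟩
  exact h1 i

/-- The family of vectors attached to generators of an ideal and to a family of polynomials. -/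
noncomputable def fam {κ : Type} (k : ℕ) (gen : Fin d → MvPolynomial (Fin d) ℝ)
    (mm : κ → MvPolynomial (Fin d) ℝ) : ((Fin d × mons d k) ⊕ κ) → (mons d k → ℝ)
  | Sum.inl a => kap d k (gen a.1 * monomial (a.2 : Fin d →₀ ℕ) 1)
  | Sum.inr j => kap d k (mm j)

theorem kap_mul (k : ℕ) (g h : MvPolynomial (Fin d) ℝ) :
    kap d k (g * h) = ∑ m : mons d k, coeff (m : Fin d →₀ ℕ) h • kap d k (g * monomial (m : Fin d →₀ ℕ) 1) := by
  have h1 : kap d k (h - lift d k (kap d k h)) = 0 := by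
    rw [map_sub, kap_lift, sub_self]
  have h2 : kap d k (g * (h - lift d k (kap d k h))) = 0 := by
    rw [kap_eq_zero] at h1 ⊢
    exact Ideal.mul_mem_left _ _ h1
  rw [mul_sub, map_sub, sub_eq_zero] at h2
  rw [h2, lift_apply, Finset.mul_sum, map_sum]
  refine Finset.sum_congr rfl fun m _ => ?_
  rw [← map_smul]
  congr 1
  rw [← mul_smul_comm, smul_monomial, smul_eq_mul, mul_one]
  rfl

/-- If the polynomials span modulo the ideal, the vectors span. -/
theorem fam_span {κ : Type} [Fintype κ] {k : ℕ} {gen : Fin d → MvPolynomial (Fin d) ℝ}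
    {mm : κ → MvPolynomial (Fin d) ℝ}
    (h : ∀ q : MvPolynomial (Fin d) ℝ, ∃ s ∈ Submodule.span ℝ (Set.range mm), q - s ∈ idl k gen)
    (q : mons d k → ℝ) : ∃ c : ((Fin d × mons d k) ⊕ κ) → ℝ, ∑ a, c a • fam k gen mm a = q := by
  obtain ⟨s, hs, hq⟩ := h (lift d k q)
  obtain ⟨c, hc⟩ := (Submodule.mem_span_range_iff_exists_fun ℝ).1 hs
  obtain ⟨x, hx, y, hy, hxy⟩ := Submodule.mem_sup.1 hq
  obtain ⟨h', hh'⟩ := Ideal.mem_span_range_iff_exists_fun.1 hx
  refine ⟨Sum.elim (fun a => coeff (a.2 : Fin d →₀ ℕ) (h' a.1)) c, ?_⟩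
  rw [Fintype.sum_sum_type]
  simp only [Sum.elim_inl, Sum.elim_inr, fam]
  have e1 : ∑ a : Fin d × mons d k, coeff (a.2 : Fin d →₀ ℕ) (h' a.1) •
      kap d k (gen a.1 * monomial (a.2 : Fin d →₀ ℕ) 1) = kap d k x := by
    rw [← hh', map_sum, Fintype.sum_prod_type]
    refine Finset.sum_congr rfl fun i _ => ?_
    rw [mul_comm (h' i), kap_mul]
  have e2 : ∑ j, c j • kap d k (mm j) = kap d k s := by
    rw [← hc, map_sum]
    refine Finset.sum_congr rfl fun j _ => ?_
    rw [map_smul]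
  have e3 : kap d k y = 0 := kap_eq_zero.2 hy
  rw [e1, e2]
  have e4 : lift d k q = x + y + s := by rw [hxy]; ring
  have e5 := congrArg (kap d k) e4
  rw [kap_lift, map_add, map_add, e3, add_zero] at e5
  exact e5.symm

/-- The converse. -/
theorem fam_solve {κ : Type} [Fintype κ] {k : ℕ} {gen : Fin d → MvPolynomial (Fin d) ℝ}
    {mm : κ → MvPolynomial (Fin d) ℝ} {Q : MvPolynomial (Fin d) ℝ}
    {c : ((Fin d × mons d k) ⊕ κ) → ℝ} (h : ∑ a, c a • fam k gen mm a = kap d k Q) :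
    Q - ∑ j, c (Sum.inr j) • mm j ∈ idl k gen := by
  rw [Fintype.sum_sum_type] at h
  simp only [fam] at h
  set x : MvPolynomial (Fin d) ℝ := ∑ a : Fin d × mons d k, c (Sum.inl a) •
    (gen a.1 * monomial (a.2 : Fin d →₀ ℕ) 1) with hx
  have h1 : kap d k (Q - ∑ j, c (Sum.inr j) • mm j - x) = 0 := by
    rw [map_sub, map_sub, ← h, hx, map_sum, map_sum]
    simp only [map_smul]
    abel
  have h2 : x ∈ idl k gen := by
    rw [hx]
    apply Ideal.sum_mem
    intro a _
    rw [← mul_smul_comm, smul_monomial]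
    exact Ideal.mul_mem_right _ _ (gen_mem k gen a.1)
  have h3 : Q - ∑ j, c (Sum.inr j) • mm j = (Q - ∑ j, c (Sum.inr j) • mm j - x) + x := by ring
  rw [h3]
  exact Ideal.add_mem _ (Ideal.mem_sup_right (kap_eq_zero.1 h1)) h2

end Pool.Agent.L0h24.PF
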