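import Pool.Agent.L0h24.PF.Bad

set_option autoImplicit false

/-! The inductive step. -/

open MeasureTheory Set Topology Asymptotics Filter
open scoped ENNReal NNReal

namespace Pool.Agent.L0h24.PF

open Pool.Agent.H810R3.Tub (Vec)
open MvPolynomial

variable {d c : ℕ}

theorem GG_dirs (k : ℕ) (b : Vec d → Vec d) (i r : Fin d) (e : EE d c) (j' : Fin c) (θ : ℝ) :
    GG k b i (e + θ • dirs r e j') = GG k b i e := by
  unfold GG
  rw [dirs_fst, dirs_snd]

theorem FF_dirs (k : ℕ) (b : Vec d → Vec d) {i r : Fin d} (hi : i ≠ r) (e : EE d c) (j' : Fin c) (θ : ℝ) :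
    FF k b i (e + θ • dirs r e j') = FF k b i e := by
  unfold FF
  rw [GG_dirs]
  congr 2
  unfold ss
  rw [dirs_fst, dirs_par r e j' θ hi]

theorem xr_eq (r : Fin d) : xr d (r : ℕ) = X r := by
  unfold xr
  rw [dif_pos r.2]

theorem X_pow_mem (k : ℕ) (gen : Fin d → MvPolynomial (Fin d) ℝ) (r : Fin d) :
    (X r : MvPolynomial (Fin d) ℝ) ^ k ∈ idl k gen := by
  have h : (X r : MvPolynomial (Fin d) ℝ) ∈ idealOfVars (Fin d) ℝ := Ideal.subset_span ⟨r, rfl⟩
  exact Ideal.mem_sup_right (Ideal.pow_mem_pow h k)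

theorem CD_C {E : Type} [NormedAddCommGroup E] [NormedSpace ℝ E] {e₀ : E} {f : E → ℝ}
    (hf : ContDiffAt ℝ 1 f e₀) : (fun e : E => Polynomial.C (f e)) ∈ CD e₀ := by
  intro l
  simp only [Polynomial.coeff_C]
  split_ifs
  · exact hf
  · exact contDiffAt_const

theorem local_bad {k : ℕ} {b : Vec d → Vec d} (hb : ContDiff ℝ (k + 1 : ℕ) b) (r : Fin d)
    (e₀ : EE d c) (h : Sp k c (fun i => FF k b i e₀) r) :
    ∃ U : Set (EE d c), IsOpen U ∧ e₀ ∈ U ∧
      dimH {e ∈ U | ¬ Sp k c (fun i => FF k b i e) ((r : ℕ) + 1)} ≤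
        ((Module.finrank ℝ (EE d c) - c : ℕ) : ℝ≥0∞) := by
  classical
  set F : EE d c → Fin d → MvPolynomial (Fin d) ℝ := fun e i => FF k b i e with hF
  set gB : EE d c → Fin d → MvPolynomial (Fin d) ℝ := fun e => genB (F e) r with hgB
  set mm : Fin k × (Mons d c r) → MvPolynomial (Fin d) ℝ :=
    fun a => X r ^ (a.1 : ℕ) * (a.2 : MvPolynomial (Fin d) ℝ) with hmm
  have hset : {y : MvPolynomial (Fin d) ℝ | ∃ j < k, ∃ g ∈ (Mons d c r : Set (MvPolynomial (Fin d) ℝ)),
      y = X r ^ j * g} = Set.range mm := by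
    ext y
    constructor
    · rintro ⟨j, hj, g, hg, rfl⟩
      exact ⟨(⟨j, hj⟩, ⟨g, hg⟩), rfl⟩
    · rintro ⟨⟨j, g⟩, rfl⟩
      exact ⟨j, j.2, g, g.2, rfl⟩
  have h1 : ∀ q : MvPolynomial (Fin d) ℝ, ∃ s ∈ Submodule.span ℝ (Set.range mm),
      q - s ∈ idl k (gB e₀) := by
    have h2 := span_lift (X_pow_mem k (gB e₀) r) (M := (Mons d c r : Set (MvPolynomial (Fin d) ℝ)))
      (fun q => by
        obtain ⟨s, hs, hq⟩ := h q
        exact ⟨s, hs, genA_le k _ r hq⟩)
    rw [hset] at h2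
    exact h2
  obtain ⟨S, hSc, hS⟩ := exists_solver (fam k (gB e₀) mm) (fam_span h1) 1
  set W : EE d c → ((Fin d × mons d k) ⊕ (Fin k × (Mons d c r))) → (mons d k → ℝ) :=
    fun e => fam k (gB e) mm with hW
  have hgBm : ∀ i, (fun e => gB e i) ∈ MD (EE d c) d := by
    intro i
    rw [hgB]
    simp only [genB]
    split_ifs with h2 h3
    · exact FF_mem hb i
    · exact MD_const 0
    · exact MD_const (X i)
  have hWc : ContDiff ℝ 1 W := by
    rw [contDiff_pi]
    rintro (⟨i, m⟩ | a)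
    · rw [contDiff_pi]
      intro m'
      exact (MD _ d).mul_mem (hgBm i) (MD_const (monomial (m : Fin d →₀ ℕ) 1)) m'
    · exact contDiff_const
  have hev : ∀ᶠ e in 𝓝 e₀, ContDiffAt ℝ 1 S (W e) ∧ ∀ q, ∑ a, S (W e) q a • W e a = q :=
    hWc.continuous.continuousAt.eventually ((hSc.eventually (by simp)).and hS)
  obtain ⟨U, hUs, hUo, hUm⟩ := eventually_nhds_iff.1 hev
  refine ⟨U, hUo, hUm, ?_⟩
  -- the matrix
  set M : EE d c → Matrix (Mons d c r) (Mons d c r) (Polynomial ℝ) := fun e i j =>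
    ∑ l : Fin k, Polynomial.C (S (W e) (kap d k (GG k b r e * (i : MvPolynomial (Fin d) ℝ)))
      (Sum.inr (l, j))) * Polynomial.X ^ (l : ℕ) with hM
  have hMCD : ∀ e ∈ U, ∀ i j, (fun e => M e i j) ∈ CD e := by
    intro e he i j
    have h2 : (fun e => M e i j) = ∑ l : Fin k,
        (fun e => Polynomial.C (S (W e) (kap d k (GG k b r e * (i : MvPolynomial (Fin d) ℝ)))
          (Sum.inr (l, j)))) * (fun _ => (Polynomial.X : Polynomial ℝ) ^ (l : ℕ)) := by
      funext e'
      rw [Finset.sum_apply]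
      rfl
    rw [h2]
    apply Subring.sum_mem
    intro l _
    refine (CD e).mul_mem (CD_C ?_) (fun _ => contDiffAt_const)
    have h3 : ContDiffAt ℝ 1 (fun e => S (W e)) e :=
      ContDiffAt.comp e (g := S) (f := W) (hUs e he).1 hWc.contDiffAt
    have h4 : ContDiff ℝ 1 (fun e : EE d c => kap d k (GG k b r e * (i : MvPolynomial (Fin d) ℝ))) := by
      rw [contDiff_pi]
      intro m
      exact (MD _ d).mul_mem (GG_mem hb r) (MD_const (i : MvPolynomial (Fin d) ℝ)) m
    exact (contDiffAt_pi.1 (h3.clm_apply h4.contDiffAt)) (Sum.inr (l, j))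
  have hMs : ∀ e ∈ U, ∀ i : Mons d c r, GG k b r e * (i : MvPolynomial (Fin d) ℝ) -
      ∑ j, Polynomial.aeval (X r) (M e i j) * (j : MvPolynomial (Fin d) ℝ) ∈ idl k (gB e) := by
    intro e he i
    have h2 := fam_solve ((hUs e he).2 (kap d k (GG k b r e * (i : MvPolynomial (Fin d) ℝ))))
    convert h2 using 2
    rw [Fintype.sum_prod_type, Finset.sum_comm]
    refine Finset.sum_congr rfl fun j _ => ?_
    rw [hM]
    simp only
    rw [map_sum, Finset.sum_mul]
    refine Finset.sum_congr rfl fun l _ => ?_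
    rw [map_mul, map_pow, Polynomial.aeval_C, Polynomial.aeval_X, mul_assoc, ← Algebra.smul_def]
  have hsub : {e ∈ U | ¬ Sp k c (F e) ((r : ℕ) + 1)} ⊆
      {e ∈ U | ∀ l ≤ Fintype.card (Mons d c r) * c,
        ((-(M e)).charpoly.eval (ss r e)).coeff l = 0} := by
    rintro e ⟨he, hn⟩
    refine ⟨he, ?_⟩
    by_contra hcon
    push Not at hcon
    have hex : ∃ l, ((-(M e)).charpoly.eval (ss r e)).coeff l ≠ 0 := by
      obtain ⟨l, _, hl⟩ := hcon
      exact ⟨l, hl⟩
    set a := Nat.find hex with ha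
    have ha1 := Nat.find_spec hex
    have ha2 : ∀ l < a, ((-(M e)).charpoly.eval (ss r e)).coeff l = 0 := by
      intro l hl
      by_contra h2
      exact Nat.find_min hex hl h2
    have ha3 : a ≤ (Mons d c r).card * c := by
      obtain ⟨l, hl, hl'⟩ := hcon
      rw [Fintype.card_coe] at hl
      exact (Nat.find_min' hex hl').trans hl
    apply hn
    have hdet := det_mem (X_pow_mem k (gB e) r) (fun i : Mons d c r => (i : MvPolynomial (Fin d) ℝ))
      (GG k b r e) (M e) (hMs e he) (ss r e) a ha2 ha1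
    have hspan : ∀ q : MvPolynomial (Fin d) ℝ, ∃ s ∈ Submodule.span ℝ
        {y : MvPolynomial (Fin d) ℝ | ∃ j < k, ∃ g ∈ (Mons d c r : Set (MvPolynomial (Fin d) ℝ)),
          y = X r ^ j * g}, q - s ∈ idl k (gB e) := by
      intro q
      refine ⟨_, ?_, fam_solve ((hUs e he).2 (kap d k q))⟩
      apply Submodule.sum_mem
      intro j _
      apply Submodule.smul_mem
      apply Submodule.subset_span
      rw [hset]
      exact ⟨j, rfl⟩
    have hcut := span_cut (B' := idl k (genA (F e) ((r : ℕ) + 1)))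
      (le_trans le_sup_left (genB_le k (F e) r)) ha3 hspan (fun g hg => by
        have h2 := hdet ⟨g, hg⟩
        have h3 : GG k b r e + Polynomial.aeval (X r) (ss r e) = F e r := rfl
        rw [h3] at h2
        exact genB_le k (F e) r h2)
    intro q
    obtain ⟨s, hs, hq⟩ := hcut q
    refine ⟨s, ?_, hq⟩
    have h2 : {y : MvPolynomial (Fin d) ℝ | ∃ j < (Mons d c r).card * c,
        ∃ g ∈ (Mons d c r : Set (MvPolynomial (Fin d) ℝ)), y = X r ^ j * g} =
        (Mons d c ((r : ℕ) + 1) : Set (MvPolynomial (Fin d) ℝ)) := by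
      ext y
      rw [Finset.mem_coe, mem_Mons_succ, xr_eq]
      rfl
    rw [← h2]
    exact hs
  refine (dimH_mono hsub).trans ?_
  apply dim_bad hMCD (fun e _ => ss_mem r e) (dirs r)
  · intro e j' θ
    have h2 : gB (e + θ • dirs r e j') = gB e := by
      funext i
      rw [hgB]
      simp only [genB]
      split_ifs with h3 h4
      · apply FF_dirs
        intro h5
        rw [h5] at h3
        exact lt_irrefl _ h3
      · rfl
      · rfl
    have h3 : W (e + θ • dirs r e j') = W e := by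
      rw [hW]
      simp only
      rw [h2]
    rw [hM]
    simp only
    rw [h3, GG_dirs]
  · intro e j' θ
    exact ss_dirs r e j' θ

end Pool.Agent.L0h24.PF
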